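import Pool.Agent.Helper24.GammaNeg

/-!
Levels `q` for which the primitive Gamma values generate, up to algebraic extension, all the Gamma
values of level `q`.
-/

set_option autoImplicit false

namespace Pool.Agent.Helper24.GammaFull

open Pool.Agent.Helper24.GammaDist Pool.Agent.Helper24.GammaChar Pool.Agent.Helper24.GammaTr
open Pool.Agent.Helper24.GammaRank Pool.Agent.Helper24.LRDefs

variable {M : Type*} [AddCommGroup M] {f : ℚ → M}

lemma per_int (hf : IsOddDist f) (x : ℚ) (m : ℕ) : f (x + m) = f x := by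
  induction m with
  | zero => simp
  | succ m ih =>
    rw [← ih, ← hf.per (x + m)]
    congr 1
    push_cast
    ring

lemma per_mod (hf : IsOddDist f) {n : ℕ} (hn : 0 < n) {a b : ℕ} (h : a ≡ b [MOD n]) :
    f ((a : ℚ) / n) = f ((b : ℚ) / n) := by
  have hn' : (n : ℚ) ≠ 0 := by positivity
  wlog hab : a ≤ b generalizing a b with H
  · exact (H h.symm (by omega)).symm
  · obtain ⟨k, hk⟩ := (Nat.modEq_iff_dvd' hab).mp h
    have hb : b = a + n * k := by omega
    rw [hb]
    push_cast
    rw [add_div, mul_comm, mul_div_assoc, div_self hn', mul_one]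
    exact (per_int hf _ k).symm

lemma neg_mod (hf : IsOddDist f) {n : ℕ} (hn : 0 < n) {a b : ℕ} (h : n ∣ a + b) :
    f ((a : ℚ) / n) = - f ((b : ℚ) / n) := by
  have hn' : (n : ℚ) ≠ 0 := by positivity
  obtain ⟨k, hk⟩ := h
  rw [← hf.odd, ← per_int hf (-((b : ℚ) / n)) k]
  congr 1
  have : (a : ℚ) + b = n * k := by exact_mod_cast hk
  field_simp
  linarith

lemma level_down (hf : IsOddDist f) (h2 : ∀ x : M, x + x = 0 → x = 0) {q : ℕ} (hq : 0 < q)
    (hpow : ∀ p : ℕ, p.Prime → p ∣ q → ∃ k : ℕ, (p : ZMod (q / p ^ q.factorization p)) ^ k = -1)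
    (h0 : ∀ a : ℕ, a.Coprime q → f ((a : ℚ) / q) = 0) :
    ∀ d n : ℕ, d * n = q → ∀ b : ℕ, b.Coprime n → f ((b : ℚ) / n) = 0 := by
  intro d
  induction d using Nat.strong_induction_on with
  | _ d ih =>
    intro n hdn b hb
    rcases Nat.lt_or_ge 1 d with hd | hd
    swap
    · have hd1 : d = 1 := by
        rcases Nat.eq_zero_or_pos d with h | h
        · subst h; omega
        · omega
      subst hd1
      rw [one_mul] at hdn
      subst hdn
      exact h0 b hb
    obtain ⟨p, hp, e, hpd⟩ := Nat.exists_prime_and_dvd hd.ne'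
    have hn : 0 < n := by
      rcases Nat.eq_zero_or_pos n with h | h
      · subst h; omega
      · exact h
    have he : 0 < e := by
      rcases Nat.eq_zero_or_pos e with h | h
      · subst h; omega
      · exact h
    have hpn : 0 < p * n := Nat.mul_pos hp.pos hn
    have hlt : e < d := by
      rw [hpd]
      exact lt_mul_of_one_lt_left he hp.one_lt
    have hen : e * (p * n) = q := by rw [← hdn, hpd]; ring
    have IH : ∀ c : ℕ, c.Coprime (p * n) → f ((c : ℚ) / ((p * n : ℕ) : ℚ)) = 0 :=
      ih e hlt (p * n) hen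
    have hp' : (p : ℚ) ≠ 0 := by exact_mod_cast hp.ne_zero
    have hn' : (n : ℚ) ≠ 0 := by positivity
    have hmul : ∀ c : ℕ, f ((c : ℚ) / n) =
        ∑ k ∈ Finset.range p, f (((c + k * n : ℕ) : ℚ) / ((p * n : ℕ) : ℚ)) := by
      intro c
      rw [← hf.mul p hp.pos ((c : ℚ) / n)]
      refine Finset.sum_congr rfl fun k _ => ?_
      congr 1
      push_cast
      field_simp
    by_cases hpdvd : p ∣ n
    · rw [hmul b]
      refine Finset.sum_eq_zero fun k _ => IH _ ?_
      have h1 : (b + k * n).Coprime n := by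
        rw [Nat.coprime_add_mul_right_left]; exact hb
      exact Nat.Coprime.mul_right (h1.coprime_dvd_right hpdvd) h1
    · have hcop : p.Coprime n := (Nat.Prime.coprime_iff_not_dvd hp).mpr hpdvd
      have hinv : ∀ c : ℕ, c.Coprime n → f (((p * c : ℕ) : ℚ) / n) = f ((c : ℚ) / n) := by
        intro c hc
        rw [hmul (p * c)]
        rw [Finset.sum_eq_single_of_mem 0 (Finset.mem_range.mpr hp.pos)]
        · congr 1
          push_cast
          rw [zero_mul, add_zero, mul_div_mul_left _ _ hp']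
        · intro k hk hk0
          rw [Finset.mem_range] at hk
          apply IH
          apply Nat.Coprime.mul_right
          · have h1 : (p * c + k * n).Coprime p := by
              rw [add_comm, Nat.coprime_add_mul_left_left]
              have h3 : k.Coprime p := by
                refine ((Nat.Prime.coprime_iff_not_dvd hp).mpr fun h => ?_).symm
                exact hk0 (Nat.eq_zero_of_dvd_of_lt h hk)
              exact Nat.Coprime.mul_left h3 hcop.symm
            exact h1
          · rw [Nat.coprime_add_mul_right_left]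
            exact Nat.Coprime.mul_left hcop hc
      have hiter : ∀ j c : ℕ, c.Coprime n → f (((p ^ j * c : ℕ) : ℚ) / n) = f ((c : ℚ) / n) := by
        intro j
        induction j with
        | zero => intro c _; simp
        | succ j ihj =>
          intro c hc
          rw [pow_succ, mul_assoc, ihj (p * c) (Nat.Coprime.mul_left hcop hc)]
          exact hinv c hc
      have hpq : p ∣ q := ⟨e * n, by rw [← hen]; ring⟩
      obtain ⟨k, hk⟩ := hpow p hp hpq
      have hndvd : n ∣ q / p ^ q.factorization p := by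
        apply Nat.dvd_ordCompl_of_dvd_not_dvd ⟨d, by rw [← hdn]; ring⟩ hpdvd
      have hk2 : (p : ZMod n) ^ k = -1 := by
        have := congrArg (ZMod.castHom hndvd (ZMod n)) hk
        rwa [map_pow, map_natCast, map_neg, map_one] at this
      have hdiv : n ∣ p ^ k * b + b := by
        rw [← ZMod.natCast_eq_zero_iff]
        push_cast
        rw [hk2]
        ring
      have h3 := neg_mod hf hn hdiv
      rw [hiter k b hb] at h3
      exact h2 _ (by nth_rewrite 1 [h3]; exact neg_add_cancel _)

lemma dist_comp' {M : Type*} [AddCommGroup M] [Module ℚ M] (l : W →ₗ[ℚ] M) :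
    IsOddDist (fun x => l (h x)) := by
  refine ⟨fun x => by rw [h_per], fun x => by rw [h_odd, map_neg], fun N hN x => ?_⟩
  rw [← map_sum, h_mul N hN]

/-- the quotient map -/
noncomputable def quo (K : IntermediateField ℚ ℂ) (hpi : (Real.pi : ℂ) ∈ K) :
    W →ₗ[ℚ] (ℝ ⧸ CC K) :=
  Submodule.mapQ A (CC K) LinearMap.id (A_le_CC K hpi)

lemma quo_h_eq_zero_iff (K : IntermediateField ℚ ℂ) (hpi : (Real.pi : ℂ) ∈ K) {a n : ℕ}
    (ha : 0 < a) (hn : 0 < n) :
    quo K hpi (h ((a : ℚ) / n)) = 0 ↔ IsAlgebraic K (Complex.Gamma ((a : ℂ) / (n : ℂ))) := by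
  have hpos : (0 : ℝ) < (a : ℝ) / n := by positivity
  have h1 : h ((a : ℚ) / n) = Submodule.Quotient.mk (Real.log (Real.Gamma ((a : ℝ) / n))) := by
    rw [h_eq _ (by positivity)]
    unfold G
    push_cast
    rfl
  rw [h1]
  change (Submodule.Quotient.mk (Real.log (Real.Gamma ((a : ℝ) / n))) : ℝ ⧸ CC K) = 0 ↔ _
  rw [Submodule.Quotient.mk_eq_zero, log_Gamma_mem K hpos]
  have h2 : ((Real.Gamma ((a : ℝ) / n) : ℝ) : ℂ) = Complex.Gamma ((a : ℂ) / (n : ℂ)) := by
    rw [← Complex.Gamma_ofReal]; push_cast; rfl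
  rw [h2]

lemma trdeg_le_of_alg2_gen {k E : Type} [Field k] [Field E] [Algebra k E]
    (L K : IntermediateField k E) (h : ∀ z ∈ L, IsAlgebraic K z) :
    Algebra.trdeg k L ≤ Algebra.trdeg k K := by
  set M : IntermediateField K E := algebraicClosure K E with hM
  have hLM : L ≤ M.restrictScalars k := by
    intro z hz
    rw [IntermediateField.mem_restrictScalars, hM, mem_algebraicClosure_iff]
    exact h z hz
  have h1 : Algebra.trdeg k L ≤ Algebra.trdeg k (M.restrictScalars k) :=
    trdeg_le_of_injective (IntermediateField.inclusion hLM)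
      (IntermediateField.inclusion hLM).injective
  refine h1.trans ?_
  have h2 : Algebra.trdeg k (M.restrictScalars k) = Algebra.trdeg k M := rfl
  rw [h2]
  have hMalg : Algebra.IsAlgebraic K M := algebraicClosure.isAlgebraic K E
  have hfaith : FaithfulSMul K M :=
    (faithfulSMul_iff_algebraMap_injective K M).mpr (algebraMap K M).injective
  have hfaith2 : FaithfulSMul k K :=
    (faithfulSMul_iff_algebraMap_injective k K).mpr (algebraMap k K).injective
  have h3 : Algebra.trdeg k K + Algebra.trdeg K M = Algebra.trdeg k M := trdeg_add_eq k K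
  have h4 : Algebra.trdeg K M = 0 := trdeg_eq_zero
  rw [← h3, h4, add_zero]

lemma trdeg_le_of_alg2 (L K : IntermediateField ℚ ℂ) (h : ∀ z ∈ L, IsAlgebraic K z) :
    Algebra.trdeg ℚ L ≤ Algebra.trdeg ℚ K := by
  exact trdeg_le_of_alg2_gen L K h

lemma F_le_Fall (q : ℕ) : F q ≤ Fall q := by
  unfold F Fall
  apply IntermediateField.adjoin.mono
  rintro z (hz | ⟨a, h1, h2, _, h3⟩)
  · exact Or.inl hz
  · exact Or.inr ⟨a, h1, h2, h3⟩

theorem all_algebraic (q : ℕ) (hq : 2 < q)
    (hpow : ∀ p : ℕ, p.Prime → p ∣ q → ∃ k : ℕ, (p : ZMod (q / p ^ q.factorization p)) ^ k = -1)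
    (a : ℕ) (ha1 : 1 ≤ a) (ha2 : a ≤ q - 1) :
    IsAlgebraic (F q) (Complex.Gamma ((a : ℂ) / (q : ℂ))) := by
  have hq0 : 0 < q := by omega
  have hpi : (Real.pi : ℂ) ∈ F q := IntermediateField.subset_adjoin ℚ _ (Or.inl rfl)
  rw [← quo_h_eq_zero_iff (F q) hpi (by omega) hq0]
  have hf := dist_comp' (quo (F q) hpi)
  have h2 : ∀ x : ℝ ⧸ CC (F q), x + x = 0 → x = 0 := by
    intro x hx
    rw [← two_smul ℚ x] at hx
    exact (smul_eq_zero.mp hx).resolve_left (by norm_num)
  have h0 : ∀ c : ℕ, c.Coprime q → (fun x => quo (F q) hpi (h x)) ((c : ℚ) / q) = 0 := by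
    intro c hc
    have e1 : (fun x => quo (F q) hpi (h x)) ((c : ℚ) / q) =
        (fun x => quo (F q) hpi (h x)) (((c % q : ℕ) : ℚ) / q) :=
      per_mod hf hq0 (Nat.mod_modEq c q).symm
    rw [e1]
    have hc2 : (c % q).Coprime q := by
      rw [Nat.Coprime, ← Nat.gcd_rec, Nat.gcd_comm]; exact hc
    have hlt := Nat.mod_lt c hq0
    have hpos : 0 < c % q := by
      rcases Nat.eq_zero_or_pos (c % q) with h | h
      · rw [h, Nat.coprime_zero_left] at hc2; omega
      · exact h
    change quo (F q) hpi (h (((c % q : ℕ) : ℚ) / q)) = 0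
    rw [quo_h_eq_zero_iff (F q) hpi hpos hq0]
    apply isAlg_of_mem
    exact IntermediateField.subset_adjoin ℚ _ (Or.inr ⟨c % q, hpos, by omega, hc2, rfl⟩)
  have hg : 0 < Nat.gcd a q := Nat.gcd_pos_of_pos_right _ hq0
  have key := level_down hf h2 hq0 hpow h0 (Nat.gcd a q) (q / Nat.gcd a q)
    (Nat.mul_div_cancel' (Nat.gcd_dvd_right a q)) (a / Nat.gcd a q)
    (Nat.coprime_div_gcd_div_gcd hg)
  have e2 : ((a / Nat.gcd a q : ℕ) : ℚ) / ((q / Nat.gcd a q : ℕ) : ℚ) = (a : ℚ) / q := by
    have hg' : ((Nat.gcd a q : ℕ) : ℚ) ≠ 0 := by positivity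
    rw [Nat.cast_div (Nat.gcd_dvd_left a q) hg', Nat.cast_div (Nat.gcd_dvd_right a q) hg',
      div_div_div_cancel_right₀ hg']
  rw [e2] at key
  exact key

theorem trdeg_eq (q : ℕ) (hq : 2 < q)
    (hpow : ∀ p : ℕ, p.Prime → p ∣ q → ∃ k : ℕ, (p : ZMod (q / p ^ q.factorization p)) ^ k = -1) :
    Algebra.trdeg ℚ (F q) = Algebra.trdeg ℚ (Fall q) := by
  apply le_antisymm
  · exact trdeg_le_of_injective (IntermediateField.inclusion (F_le_Fall q))
      (IntermediateField.inclusion (F_le_Fall q)).injective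
  · apply trdeg_le_of_alg2
    have hpi : (Real.pi : ℂ) ∈ F q := IntermediateField.subset_adjoin ℚ _ (Or.inl rfl)
    have hle : Fall q ≤ (algebraicClosure (F q) ℂ).restrictScalars ℚ := by
      unfold Fall
      rw [IntermediateField.adjoin_le_iff]
      rintro z (hz | ⟨a, ha1, ha2, rfl⟩)
      · rw [Set.mem_singleton_iff] at hz
        rw [hz]
        change _ ∈ IntermediateField.restrictScalars ℚ _
        rw [IntermediateField.mem_restrictScalars, mem_algebraicClosure_iff]
        exact isAlg_of_mem _ hpi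
      · change _ ∈ IntermediateField.restrictScalars ℚ _
        rw [IntermediateField.mem_restrictScalars, mem_algebraicClosure_iff]
        exact all_algebraic q hq hpow a ha1 ha2
    intro z hz
    have := hle hz
    rwa [IntermediateField.mem_restrictScalars, mem_algebraicClosure_iff] at this

end Pool.Agent.Helper24.GammaFull
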