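import Pool.Agent.Helper24.GammaTr

/-!
Levels `q` for which the primitive Gamma values satisfy an extra relation.
-/

set_option autoImplicit false

namespace Pool.Agent.Helper24.GammaNeg

open Pool.Agent.Helper24.GammaChar Pool.Agent.Helper24.GammaTr Pool.Agent.Helper24.LRDefs

lemma card_odd (q : ℕ) (hq : 2 < q) :
    2 * Nat.card {χ : DirichletCharacter ℂ q // χ.Odd} = q.totient := by
  classical
  have : NeZero q := ⟨by omega⟩
  have h1 : (-1 : ZMod q) ≠ 1 := by
    have : Fact (2 < q) := ⟨hq⟩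
    exact ZMod.neg_one_ne_one
  have h2 := DirichletCharacter.sum_characters_eq_zero ℂ h1
  have h3 : ∀ χ : DirichletCharacter ℂ q, χ (-1) = 1 - 2 * (if χ.Odd then 1 else 0) := by
    intro χ
    rcases χ.even_or_odd with he | ho
    · rw [if_neg he.not_odd, he]; ring
    · rw [if_pos ho, ho]; ring
  simp only [h3, Finset.sum_sub_distrib, Finset.sum_const, Finset.card_univ, nsmul_eq_mul,
    mul_one, ← Finset.mul_sum, Finset.sum_boole] at h2
  have h4 := DirichletCharacter.card_eq_totient_of_hasEnoughRootsOfUnity ℂ q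
  rw [Nat.card_eq_fintype_card] at h4
  rw [h4] at h2
  rw [Nat.card_eq_fintype_card, Fintype.card_subtype]
  have h5 : ((2 * (Finset.univ.filter (fun χ : DirichletCharacter ℂ q => χ.Odd)).card : ℕ) : ℂ) =
      (q.totient : ℂ) := by
    push_cast
    linear_combination -h2
  exact_mod_cast h5

lemma exists_odd_one {n : ℕ} [NeZero n] {p : ℕ} (hcop : p.Coprime n)
    (hneg : ∀ k : ℕ, (p : ZMod n) ^ k ≠ -1) :
    ∃ ψ : DirichletCharacter ℂ n, ψ.Odd ∧ ψ (p : ℕ) = 1 := by
  classical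
  set u : (ZMod n)ˣ := ZMod.unitOfCoprime p hcop with hu
  set H : Subgroup (ZMod n)ˣ := Subgroup.zpowers u with hH
  have hnotin : (-1 : (ZMod n)ˣ) ∉ H := by
    intro hmem
    rw [hH, ← mem_powers_iff_mem_zpowers] at hmem
    obtain ⟨k, hk⟩ := hmem
    apply hneg k
    have := congrArg (fun w : (ZMod n)ˣ => (w : ZMod n)) hk
    simpa [hu] using this
  have hne : (QuotientGroup.mk (-1 : (ZMod n)ˣ) : (ZMod n)ˣ ⧸ H) ≠ 1 := by
    intro h
    exact hnotin ((QuotientGroup.eq_one_iff _).mp h)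
  have hexp0 : Monoid.exponent ((ZMod n)ˣ ⧸ H) ≠ 0 := by
    have := Monoid.exponent_ne_zero_of_finite (G := (ZMod n)ˣ ⧸ H)
    exact this
  have hexp : NeZero ((Monoid.exponent ((ZMod n)ˣ ⧸ H) : ℕ) : ℂ) :=
    ⟨Nat.cast_ne_zero.mpr hexp0⟩
  obtain ⟨φ, hφ⟩ := CommGroup.exists_apply_ne_one_of_hasEnoughRootsOfUnity
    ((ZMod n)ˣ ⧸ H) ℂ hne
  set ψ : DirichletCharacter ℂ n := MulChar.ofUnitHom (φ.comp (QuotientGroup.mk' H)) with hψ
  have hval : ∀ w : (ZMod n)ˣ, ψ (w : ZMod n) = ((φ (QuotientGroup.mk w) : ℂˣ) : ℂ) := by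
    intro w
    rw [hψ, MulChar.ofUnitHom_coe]
    rfl
  refine ⟨ψ, ?_, ?_⟩
  · apply ψ.even_or_odd.resolve_left
    intro heven
    apply hφ
    apply Units.ext
    have h1 := hval (-1)
    rw [Units.val_neg, Units.val_one] at h1
    rw [← h1, heven]
    simp
  · have h1 := hval u
    rw [hu, ZMod.coe_unitOfCoprime] at h1
    rw [h1]
    have h2 : (QuotientGroup.mk (ZMod.unitOfCoprime p hcop) : (ZMod n)ˣ ⧸ H) = 1 := by
      rw [QuotientGroup.eq_one_iff, hH]
      exact Subgroup.mem_zpowers _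
    rw [h2, map_one, Units.val_one]

lemma exists_bad (q : ℕ) (hq : 2 < q) {p : ℕ} (hp : p.Prime)
    (hneg : ∀ k : ℕ, (p : ZMod (q / p ^ q.factorization p)) ^ k ≠ -1) :
    ∃ χ : DirichletCharacter ℂ q, χ.Odd ∧ χ.primitiveCharacter (p : ℕ) = 1 := by
  classical
  have hq0 : NeZero q := ⟨by omega⟩
  have hfp : Fact p.Prime := ⟨hp⟩
  have hcop : p.Coprime (q / p ^ q.factorization p) := Nat.coprime_ordCompl hp (NeZero.ne q)
  have hn0 : NeZero (q / p ^ q.factorization p) := ⟨(Nat.ordCompl_pos p (NeZero.ne q)).ne'⟩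
  have hdvd : q / p ^ q.factorization p ∣ q := Nat.ordCompl_dvd q p
  obtain ⟨ψ, hodd, hone⟩ := exists_odd_one hcop hneg
  refine ⟨DirichletCharacter.changeLevel hdvd ψ, ?_, ?_⟩
  · change (DirichletCharacter.changeLevel hdvd ψ) (-1) = -1
    have h1 := DirichletCharacter.changeLevel_eq_cast_of_dvd' ψ hdvd (a := -1)
      (isCoprime_one_left.neg_left)
    push_cast at h1
    rw [h1]
    exact hodd
  · rw [← DirichletCharacter.mem_subgroupOfPrimitiveMapToOne_iff]
    unfold DirichletCharacter.subgroupOfPrimitiveMapToOne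
    refine ⟨ψ, ?_, rfl⟩
    rw [SetLike.mem_coe, DirichletCharacter.mem_annihilator_iff]
    intro a ha
    rw [Set.mem_singleton_iff] at ha
    rw [ha, ZMod.coe_unitOfCoprime]
    exact hone

lemma card_good_lt (q : ℕ) (hq : 2 < q) {p : ℕ} (hp : p.Prime) (hpq : p ∣ q)
    (hneg : ∀ k : ℕ, (p : ZMod (q / p ^ q.factorization p)) ^ k ≠ -1) :
    1 + Nat.card {χ : DirichletCharacter ℂ q // Good q χ} ≤ q.totient / 2 := by
  classical
  have hq0 : NeZero q := ⟨by omega⟩
  obtain ⟨χ, hodd, hone⟩ := exists_bad q hq hp hneg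
  have h1 := card_odd q hq
  rw [Nat.card_eq_fintype_card, Fintype.card_subtype] at h1 ⊢
  have h2 : (Finset.univ.filter (fun χ : DirichletCharacter ℂ q => Good q χ)) ⊂
      (Finset.univ.filter (fun χ : DirichletCharacter ℂ q => χ.Odd)) := by
    rw [Finset.ssubset_iff_of_subset]
    · refine ⟨χ, by simpa using hodd, ?_⟩
      rw [Finset.mem_filter, not_and]
      intro _ hgood
      exact hgood.2 p hp hpq hone
    · intro ξ hξ
      rw [Finset.mem_filter] at hξ ⊢
      exact ⟨hξ.1, hξ.2.1⟩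
  have h3 := Finset.card_lt_card h2
  omega

/-- If some prime `p ∣ q` is such that `-1` is not a power of `p` modulo the `p`-free part of `q`,
then the inequality of Q1 fails at `q`. -/
theorem fails (q : ℕ) (hq : 2 < q) {p : ℕ} (hp : p.Prime) (hpq : p ∣ q)
    (hneg : ∀ k : ℕ, (p : ZMod (q / p ^ q.factorization p)) ^ k ≠ -1) :
    Algebra.trdeg ℚ (F q) ≤ ((q.totient / 2 : ℕ) : Cardinal) :=
  (trdeg_F_le q hq).trans (by exact_mod_cast card_good_lt q hq hp hpq hneg)

lemma totient_14 : Nat.totient 14 = 6 := by decide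

theorem fails_14 : Algebra.trdeg ℚ (F 14) ≤ ((Nat.totient 14 / 2 : ℕ) : Cardinal) := by
  refine fails 14 (by norm_num) (p := 2) Nat.prime_two (by norm_num) ?_
  have h1 : Nat.factorization 14 2 = 1 := by
    rw [show (14 : ℕ) = 2 ^ 1 * 7 by norm_num, Nat.factorization_mul (by norm_num) (by norm_num)]
    simp [Nat.Prime.factorization Nat.prime_two, Nat.factorization_eq_zero_of_not_dvd]
  rw [h1]
  intro k
  have h2 : ((2 : ℕ) : ZMod (14 / 2 ^ 1)) ^ 3 = 1 := by decide
  have h3 : ((2 : ℕ) : ZMod (14 / 2 ^ 1)) ^ k = ((2 : ℕ) : ZMod (14 / 2 ^ 1)) ^ (k % 3) := by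
    conv_lhs => rw [← Nat.div_add_mod k 3]
    rw [pow_add, pow_mul, h2, one_pow, one_mul]
  rw [h3]
  have h4 : k % 3 < 3 := Nat.mod_lt _ (by norm_num)
  interval_cases k % 3 <;> decide

end Pool.Agent.Helper24.GammaNeg
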