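import Pool.Agent.Helper24.GammaDist

/-!
Character sums of odd distributions: the `χ`-component of the primitive values at level `q`
vanishes if `χ` is even or if the primitive character inducing `χ` takes the value `1` at some
prime dividing `q`.
-/

set_option autoImplicit false

namespace Pool.Agent.Helper24.GammaChar

open Pool.Agent.Helper24.GammaDist

lemma sum_blocks (F : ℕ → ℂ) (m n : ℕ) :
    ∑ a ∈ Finset.range (m * n), F a =
      ∑ k ∈ Finset.range m, ∑ b ∈ Finset.range n, F (k * n + b) := by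
  induction m with
  | zero => simp
  | succ m ih =>
    rw [Finset.sum_range_succ, ← ih, add_mul, one_mul, Finset.sum_range_add]

lemma sum_multiples (F : ℕ → ℂ) (M p : ℕ) (hp : 0 < p) :
    ∑ a ∈ Finset.range (M * p), (if p ∣ a then F a else 0) =
      ∑ k ∈ Finset.range M, F (k * p) := by
  rw [sum_blocks]
  refine Finset.sum_congr rfl fun k _ => ?_
  rw [Finset.sum_eq_single_of_mem 0 (Finset.mem_range.mpr hp)]
  · simp
  · intro b hb hb0
    rw [if_neg]
    intro hdvd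
    have h1 : p ∣ b := (Nat.dvd_add_right (Dvd.intro_left k rfl)).mp hdvd
    exact hb0 (Nat.eq_zero_of_dvd_of_lt h1 (Finset.mem_range.mp hb))

variable {f : ℚ → ℂ}

lemma S_level (hf : IsOddDist f) {n m : ℕ} (hn : 0 < n) (hm : 0 < m)
    (ψ : DirichletCharacter ℂ n) :
    ∑ a ∈ Finset.range (m * n), ψ (a : ℕ) * f ((a : ℚ) / ((m * n : ℕ) : ℚ)) =
      ∑ b ∈ Finset.range n, ψ (b : ℕ) * f ((b : ℚ) / (n : ℚ)) := by
  have hn' : (n : ℚ) ≠ 0 := by positivity
  have hm' : (m : ℚ) ≠ 0 := by positivity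
  rw [sum_blocks (fun a => ψ (a : ℕ) * f ((a : ℚ) / ((m * n : ℕ) : ℚ))), Finset.sum_comm]
  refine Finset.sum_congr rfl fun b _ => ?_
  rw [← hf.mul m hm ((b : ℚ) / n), Finset.mul_sum]
  refine Finset.sum_congr rfl fun k _ => ?_
  congr 2
  · push_cast
    simp
  · push_cast
    field_simp
    ring

lemma char_sum_zero (hf : IsOddDist f) {q n p e : ℕ} (hp : p.Prime) (hq : q = p ^ (e + 1) * n)
    (hn : 0 < n) (ψ : DirichletCharacter ℂ n) (hψ : ψ (p : ℕ) = 1) :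
    ∑ a ∈ Finset.range q, (if a.Coprime q then ψ (a : ℕ) else 0) * f ((a : ℚ) / (q : ℚ)) = 0 := by
  have hpe : 0 < p ^ e := pow_pos hp.pos _
  have hpe1 : 0 < p ^ (e + 1) := pow_pos hp.pos _
  have hval : ∀ a : ℕ, (if a.Coprime q then ψ (a : ℕ) else 0) =
      ψ (a : ℕ) - (if p ∣ a then ψ (a : ℕ) else 0) := by
    intro a
    by_cases hpa : p ∣ a
    · have : ¬ a.Coprime q := by
        intro h
        have h2 : p ∣ q := by
          rw [hq, pow_succ]
          exact Dvd.dvd.mul_right (Dvd.intro_left _ rfl) _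
        have h1 : p ∣ Nat.gcd a q := Nat.dvd_gcd hpa h2
        rw [h] at h1
        exact hp.one_lt.ne' (Nat.dvd_one.mp h1)
      rw [if_neg this, if_pos hpa, sub_self]
    · rw [if_neg hpa, sub_zero]
      by_cases han : a.Coprime n
      · rw [if_pos]
        rw [hq]
        have h3 : a.Coprime p := ((Nat.Prime.coprime_iff_not_dvd hp).mpr hpa).symm
        exact Nat.Coprime.mul_right (h3.pow_right _) han
      · have h0 : ψ ((a : ℕ) : ZMod n) = 0 := by
          apply MulChar.map_nonunit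
          rw [ZMod.isUnit_iff_coprime]
          exact han
        rw [h0]
        simp
  have e1 : ∑ a ∈ Finset.range q, (if a.Coprime q then ψ (a : ℕ) else 0) * f ((a : ℚ) / (q : ℚ)) =
      ∑ a ∈ Finset.range q, ψ (a : ℕ) * f ((a : ℚ) / (q : ℚ)) -
      ∑ a ∈ Finset.range q, (if p ∣ a then ψ (a : ℕ) * f ((a : ℚ) / (q : ℚ)) else 0) := by
    rw [← Finset.sum_sub_distrib]
    refine Finset.sum_congr rfl fun a _ => ?_
    rw [hval a]
    split_ifs <;> ring
  rw [e1]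
  have e2 : ∑ a ∈ Finset.range q, ψ (a : ℕ) * f ((a : ℚ) / (q : ℚ)) =
      ∑ b ∈ Finset.range n, ψ (b : ℕ) * f ((b : ℚ) / (n : ℚ)) := by
    rw [hq]; exact S_level hf hn hpe1 ψ
  have e3 : ∑ a ∈ Finset.range q, (if p ∣ a then ψ (a : ℕ) * f ((a : ℚ) / (q : ℚ)) else 0) =
      ∑ b ∈ Finset.range n, ψ (b : ℕ) * f ((b : ℚ) / (n : ℚ)) := by
    have hq2 : q = (p ^ e * n) * p := by rw [hq]; ring
    have hp' : (p : ℚ) ≠ 0 := by exact_mod_cast hp.ne_zero
    have e4 := sum_multiples (fun a => ψ (a : ℕ) * f ((a : ℚ) / (q : ℚ))) (p ^ e * n) p hp.pos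
    rw [← hq2] at e4
    rw [e4, ← S_level hf hn hpe ψ]
    refine Finset.sum_congr rfl fun k _ => ?_
    congr 1
    · push_cast
      rw [map_mul, hψ, mul_one]
    · congr 1
      rw [hq2]
      push_cast
      rw [mul_div_mul_right _ _ hp']
  rw [e2, e3, sub_self]

lemma sum_units (q : ℕ) [NeZero q] (F : ℕ → ℂ) :
    ∑ u : (ZMod q)ˣ, F (u : ZMod q).val =
      ∑ a ∈ Finset.range q, if a.Coprime q then F a else 0 := by
  rw [← Finset.sum_filter]
  refine Finset.sum_bij (fun u _ => (u : ZMod q).val) ?_ ?_ ?_ ?_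
  · intro u _
    rw [Finset.mem_filter, Finset.mem_range]
    exact ⟨ZMod.val_lt _, ZMod.val_coe_unit_coprime u⟩
  · intro u _ v _ h
    exact Units.ext (ZMod.val_injective q h)
  · intro a ha
    rw [Finset.mem_filter, Finset.mem_range] at ha
    refine ⟨ZMod.unitOfCoprime a ha.2, Finset.mem_univ _, ?_⟩
    rw [ZMod.coe_unitOfCoprime, ZMod.val_cast_of_lt ha.1]
  · intro u _
    rfl

/-- A character is good if it is odd and its primitive character is not `1` at any prime dividing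
the level. -/
def Good (q : ℕ) (χ : DirichletCharacter ℂ q) : Prop :=
  χ.Odd ∧ ∀ p : ℕ, p.Prime → p ∣ q → χ.primitiveCharacter (p : ℕ) ≠ 1

lemma f_int (hf : IsOddDist f) (x : ℚ) (m : ℕ) : f (x + m) = f x := by
  induction m with
  | zero => simp
  | succ m ih =>
    rw [← ih, ← hf.per (x + m)]
    congr 1
    push_cast
    ring

lemma f_neg_unit (hf : IsOddDist f) (q : ℕ) [NeZero q] (hq : 1 < q) (u : (ZMod q)ˣ) :
    f (((-u : (ZMod q)ˣ) : ZMod q).val / (q : ℚ)) = - f ((u : ZMod q).val / (q : ℚ)) := by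
  have hq' : (q : ℚ) ≠ 0 := by exact_mod_cast NeZero.ne q
  have hu : (u : ZMod q) ≠ 0 := by
    have : Fact (1 < q) := ⟨hq⟩
    exact u.ne_zero
  have h1 : ((-u : (ZMod q)ˣ) : ZMod q).val = q - (u : ZMod q).val := by
    rw [Units.val_neg]
    have : NeZero (u : ZMod q) := ⟨hu⟩
    exact ZMod.val_neg_of_ne_zero _
  rw [h1, Nat.cast_sub (ZMod.val_lt _).le, sub_div, div_self hq', ← hf.odd,
    ← hf.per (-((u : ZMod q).val / (q : ℚ)))]
  congr 1
  ring

lemma bad_factor (q : ℕ) [NeZero q] (χ : DirichletCharacter ℂ q) {p : ℕ} (hp : p.Prime)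
    (hpq : p ∣ q) (h1 : χ.primitiveCharacter (p : ℕ) = 1) :
    ∃ (n e : ℕ) (hdvd : n ∣ q) (ψ : DirichletCharacter ℂ n), q = p ^ (e + 1) * n ∧
      p.Coprime n ∧ 0 < n ∧ ψ (p : ℕ) = 1 ∧ DirichletCharacter.changeLevel hdvd ψ = χ⁻¹ := by
  have : Fact p.Prime := ⟨hp⟩
  have h2 : χ ∈ DirichletCharacter.subgroupOfPrimitiveMapToOne ℂ q p :=
    (DirichletCharacter.mem_subgroupOfPrimitiveMapToOne_iff _ p).mpr h1
  have h3 := (DirichletCharacter.subgroupOfPrimitiveMapToOne ℂ q p).inv_mem h2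
  unfold DirichletCharacter.subgroupOfPrimitiveMapToOne at h3
  rw [Subgroup.mem_map] at h3
  obtain ⟨ψ, hψ, hψ2⟩ := h3
  have hψ1 : ψ ((p : ℕ) : ZMod _) = 1 := by
    rw [DirichletCharacter.mem_annihilator_iff] at hψ
    simpa using hψ _ (Set.mem_singleton _)
  obtain ⟨e, he⟩ : ∃ e, q.factorization p = e + 1 := by
    have : 0 < q.factorization p := hp.factorization_pos_of_dvd (NeZero.ne q) hpq
    exact ⟨q.factorization p - 1, by omega⟩
  refine ⟨_, e, Nat.ordCompl_dvd q p, ψ, ?_, Nat.coprime_ordCompl hp (NeZero.ne q),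
    Nat.ordCompl_pos p (NeZero.ne q), hψ1, hψ2⟩
  rw [← he]
  exact (Nat.ordProj_mul_ordCompl_eq_self q p).symm

lemma coeff_zero (hf : IsOddDist f) (q : ℕ) [NeZero q] (hq : 1 < q) (χ : DirichletCharacter ℂ q)
    (hbad : ¬ Good q χ) :
    ∑ u : (ZMod q)ˣ, χ ((u⁻¹ : (ZMod q)ˣ) : ZMod q) * f ((u : ZMod q).val / (q : ℚ)) = 0 := by
  unfold Good at hbad
  rw [not_and_or] at hbad
  rcases hbad with hodd | hprime
  · have heven : χ (-1) = 1 := (χ.even_or_odd).resolve_right hodd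
    have h1 : ∑ u : (ZMod q)ˣ, χ ((u⁻¹ : (ZMod q)ˣ) : ZMod q) * f ((u : ZMod q).val / (q : ℚ)) =
        - ∑ u : (ZMod q)ˣ, χ ((u⁻¹ : (ZMod q)ˣ) : ZMod q) * f ((u : ZMod q).val / (q : ℚ)) := by
      conv_lhs => rw [← Equiv.sum_comp (Equiv.neg (ZMod q)ˣ)]
      rw [← Finset.sum_neg_distrib]
      refine Finset.sum_congr rfl fun u _ => ?_
      rw [Equiv.neg_apply, f_neg_unit hf q hq u]
      have h2 : χ (((-u)⁻¹ : (ZMod q)ˣ) : ZMod q) = χ ((u⁻¹ : (ZMod q)ˣ) : ZMod q) := by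
        have : (((-u)⁻¹ : (ZMod q)ˣ) : ZMod q) = (-1) * ((u⁻¹ : (ZMod q)ˣ) : ZMod q) := by
          rw [inv_neg, Units.val_neg]; ring
        rw [this, map_mul, heven, one_mul]
      rw [h2]
      ring
    have h3 : (2 : ℂ) * ∑ u : (ZMod q)ˣ, χ ((u⁻¹ : (ZMod q)ˣ) : ZMod q) *
        f ((u : ZMod q).val / (q : ℚ)) = 0 := by linear_combination h1
    exact (mul_eq_zero.mp h3).resolve_left two_ne_zero
  · push Not at hprime
    obtain ⟨p, hp, hpq, h1⟩ := hprime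
    obtain ⟨n, e, hdvd, ψ, hqn, _, hn0, hψ1, hψ2⟩ := bad_factor q χ hp hpq h1
    have h4 := char_sum_zero hf hp hqn hn0 ψ hψ1
    have h5 : ∀ u : (ZMod q)ˣ, χ ((u⁻¹ : (ZMod q)ˣ) : ZMod q) = ψ (((u : ZMod q).val : ℕ) : ZMod n) := by
      intro u
      have h6 : χ⁻¹ (u : ZMod q) = χ ((u⁻¹ : (ZMod q)ˣ) : ZMod q) := by
        rw [MulChar.inv_apply, ← Ring.inverse_unit]
      rw [← h6, ← hψ2, DirichletCharacter.changeLevel_eq_cast_of_dvd]
      congr 1
      rw [ZMod.natCast_val]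
    have h7 := sum_units q (fun a => ψ ((a : ℕ) : ZMod n) * f ((a : ℚ) / (q : ℚ)))
    rw [← h4]
    trans ∑ u : (ZMod q)ˣ, ψ (((u : ZMod q).val : ℕ) : ZMod n) * f ((u : ZMod q).val / (q : ℚ))
    · exact Finset.sum_congr rfl fun u _ => by rw [h5 u]
    · rw [h7]
      refine Finset.sum_congr rfl fun a _ => ?_
      split_ifs <;> simp

lemma expansion (q : ℕ) [NeZero q] (F : (ZMod q)ˣ → ℂ) (v : (ZMod q)ˣ) :
    F v = ∑ χ : DirichletCharacter ℂ q, ((q.totient : ℂ)⁻¹ *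
      ∑ u : (ZMod q)ˣ, χ ((u⁻¹ : (ZMod q)ˣ) : ZMod q) * F u) * χ (v : ZMod q) := by
  have hφ : (q.totient : ℂ) ≠ 0 := by
    exact_mod_cast (Nat.totient_pos.mpr (Nat.pos_of_ne_zero (NeZero.ne q))).ne'
  have h1 : ∀ u : (ZMod q)ˣ, ∑ χ : DirichletCharacter ℂ q,
      χ ((u⁻¹ : (ZMod q)ˣ) : ZMod q) * χ (v : ZMod q) = if u = v then (q.totient : ℂ) else 0 := by
    intro u
    have := DirichletCharacter.sum_char_inv_mul_char_eq ℂ u.isUnit (v : ZMod q)
    rw [← ZMod.inv_coe_unit] 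
    rw [this]
    simp [Units.ext_iff]
  have h2 : ∑ χ : DirichletCharacter ℂ q, ((q.totient : ℂ)⁻¹ *
      ∑ u : (ZMod q)ˣ, χ ((u⁻¹ : (ZMod q)ˣ) : ZMod q) * F u) * χ (v : ZMod q) =
      (q.totient : ℂ)⁻¹ * ∑ u : (ZMod q)ˣ, F u * ∑ χ : DirichletCharacter ℂ q,
      χ ((u⁻¹ : (ZMod q)ˣ) : ZMod q) * χ (v : ZMod q) := by
    simp only [Finset.mul_sum, Finset.sum_mul]
    rw [Finset.sum_comm]
    refine Finset.sum_congr rfl fun u _ => Finset.sum_congr rfl fun χ _ => ?_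
    ring
  rw [h2]
  simp only [h1]
  simp only [mul_ite, mul_zero, Finset.sum_ite_eq', Finset.mem_univ, if_true]
  field_simp

end Pool.Agent.Helper24.GammaChar
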