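import Pool.Agent.Helper24.GammaMul

/-!
The classes of `log Γ(x)` (`x` rational) modulo logarithms of algebraic numbers and rational
multiples of `log π` form an odd distribution.
-/

set_option autoImplicit false

namespace Pool.Agent.Helper24.GammaDist

open Real Pool.Agent.Helper24.GammaMul

lemma alg_rpow {y : ℝ} (hy : 0 < y) (h : IsAlgebraic ℚ y) (r : ℚ) :
    IsAlgebraic ℚ (y ^ (r : ℝ)) := by
  have hd : 0 < r.den := r.den_pos
  refine IsAlgebraic.of_pow hd ?_
  have h1 : (y ^ (r : ℝ)) ^ r.den = y ^ (r.num : ℤ) := by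
    rw [← rpow_natCast, ← rpow_mul hy.le, ← rpow_intCast]
    congr 1
    have : (r : ℝ) * (r.den : ℝ) = (r.num : ℝ) := by
      exact_mod_cast Rat.mul_den_eq_num r
    rw [this]
  rw [h1]
  rcases Int.eq_nat_or_neg r.num with ⟨m, hm | hm⟩
  · rw [hm, zpow_natCast]; exact h.pow m
  · rw [hm, zpow_neg, zpow_natCast]; exact (h.pow m).inv

lemma alg_rat (r : ℚ) : IsAlgebraic ℚ (r : ℝ) := isAlgebraic_algebraMap (R := ℚ) (A := ℝ) r

/-- Real numbers `x` such that `exp x` is an algebraic number times a rational power of `π`. -/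
def A : Submodule ℚ ℝ where
  carrier := {x | ∃ s : ℚ, IsAlgebraic ℚ (exp (x - s * log π))}
  add_mem' := by
    rintro x y ⟨s, hs⟩ ⟨t, ht⟩
    refine ⟨s + t, ?_⟩
    have : exp (x + y - ((s + t : ℚ) : ℝ) * log π) =
        exp (x - s * log π) * exp (y - t * log π) := by
      rw [← exp_add]; congr 1; push_cast; ring
    rw [this]
    exact hs.mul ht
  zero_mem' := ⟨0, by simpa using isAlgebraic_one⟩
  smul_mem' := by
    rintro r x ⟨s, hs⟩
    refine ⟨r * s, ?_⟩
    have : exp (r • x - ((r * s : ℚ) : ℝ) * log π) = (exp (x - s * log π)) ^ (r : ℝ) := by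
      rw [← exp_mul]; congr 1; rw [Rat.smul_def]; push_cast; ring
    rw [this]
    exact alg_rpow (exp_pos _) hs r

lemma log_mem_A {y : ℝ} (hy : 0 < y) (h : IsAlgebraic ℚ y) : log y ∈ A := by
  refine ⟨0, ?_⟩
  simp only [Rat.cast_zero, zero_mul, sub_zero, exp_log hy]
  exact h

lemma logpi_mem_A : log π ∈ A := ⟨1, by simpa using isAlgebraic_one⟩

/-- The quotient space. -/
abbrev W := ℝ ⧸ A

/-- The class of `log Γ(x)`. -/
noncomputable def G (x : ℝ) : W := Submodule.Quotient.mk (log (Gamma x))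

lemma G_one : G 1 = 0 := by simp [G]

lemma G_add_one (x : ℚ) (hx : 0 < x) : G (x + 1) = G x := by
  have hx' : (0 : ℝ) < x := by exact_mod_cast hx
  unfold G
  rw [Submodule.Quotient.eq, Gamma_add_one hx'.ne', log_mul hx'.ne' (Gamma_pos_of_pos hx').ne']
  rw [add_sub_cancel_right]
  exact log_mem_A hx' (alg_rat x)

lemma G_reflect (x : ℚ) (hx : 0 < x) (hx1 : x < 1) : G x + G (1 - x) = 0 := by
  have hx' : (0 : ℝ) < x := by exact_mod_cast hx
  have hx1' : (x : ℝ) < 1 := by exact_mod_cast hx1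
  unfold G
  rw [← Submodule.Quotient.mk_add, Submodule.Quotient.mk_eq_zero,
    ← log_mul (Gamma_pos_of_pos hx').ne' (Gamma_pos_of_pos (by linarith)).ne',
    Gamma_mul_Gamma_one_sub]
  have hsin : 0 < sin (π * x) := by
    apply sin_pos_of_pos_of_lt_pi
    · positivity
    · nlinarith [pi_pos]
  rw [log_div pi_ne_zero hsin.ne']
  refine Submodule.sub_mem _ logpi_mem_A (log_mem_A hsin ?_)
  rw [mul_comm]
  have := isAlgebraic_sin_rat_mul_pi x
  exact this.extendScalars (RingHom.injective_int (algebraMap ℤ ℚ))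

lemma two_smul_eq_zero {x : W} (h : x + x = 0) : x = 0 := by
  rw [← two_smul ℚ x] at h
  exact (smul_eq_zero.mp h).resolve_left (by norm_num)

lemma G_const {N : ℕ} (hN : 0 < N) :
    ∑ k ∈ Finset.range N, G (((1 + k : ℕ) : ℝ) / N) = 0 := by
  obtain ⟨M, rfl⟩ : ∃ M, N = M + 1 := ⟨N - 1, by omega⟩
  rw [Finset.sum_range_succ]
  have h1 : (((1 + M : ℕ) : ℝ) / ((M + 1 : ℕ) : ℝ)) = 1 := by
    rw [add_comm 1 M]; exact div_self (by positivity)
  rw [h1, G_one, add_zero]
  apply two_smul_eq_zero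
  conv_lhs => arg 2; rw [← Finset.sum_range_reflect]
  rw [← Finset.sum_add_distrib]
  refine Finset.sum_eq_zero fun k hk => ?_
  rw [Finset.mem_range] at hk
  have hpos : (0 : ℝ) < ((M + 1 : ℕ) : ℝ) := by positivity
  have h2 := G_reflect (((1 + k : ℕ) : ℚ) / ((M + 1 : ℕ) : ℚ)) (by positivity) (by
    rw [div_lt_one (by positivity)]
    exact_mod_cast (by omega : 1 + k < M + 1))
  push_cast at h2 ⊢
  rw [← h2]
  congr 2
  have : ((M - 1 - k : ℕ) : ℝ) = (M : ℝ) - 1 - k := by
    rw [Nat.cast_sub (by omega), Nat.cast_sub (by omega)]; simp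
  rw [this]
  field_simp
  ring

lemma G_mul {N : ℕ} (hN : 0 < N) (x : ℚ) (hx : 0 < x) :
    ∑ k ∈ Finset.range N, G ((x + k) / N) = G x := by
  have hx' : (0 : ℝ) < x := by exact_mod_cast hx
  have hN' : (0 : ℝ) < N := Nat.cast_pos.mpr hN
  have key : ∀ y : ℝ, 0 < y → ∑ k ∈ Finset.range N, G ((y + k) / N) =
      Submodule.Quotient.mk (log (gprod N y)) := by
    intro y hy
    unfold gprod
    rw [log_prod (fun k _ => (Gamma_pos_of_pos (by positivity)).ne')]
    exact (map_sum (Submodule.mkQ A) _ _).symm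
  have hc : (Submodule.Quotient.mk (log (gprod N 1)) : W) = 0 := by
    rw [← key 1 one_pos, ← G_const hN]
    refine Finset.sum_congr rfl fun k _ => ?_
    push_cast
    rfl
  rw [key x hx', gprod_eq hN hx']
  have hg1 := gprod_pos hN one_pos
  rw [log_mul (by positivity) (Gamma_pos_of_pos hx').ne', log_mul (by positivity) (by positivity),
    log_mul hN'.ne' hg1.ne', Submodule.Quotient.mk_add, Submodule.Quotient.mk_add,
    Submodule.Quotient.mk_add, hc]
  have e1 : (Submodule.Quotient.mk (log (N : ℝ)) : W) = 0 :=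
    (Submodule.Quotient.mk_eq_zero _).mpr (log_mem_A hN' (isAlgebraic_natCast N))
  have e2 : (Submodule.Quotient.mk (log ((N : ℝ) ^ (-(x : ℝ)))) : W) = 0 := by
    refine (Submodule.Quotient.mk_eq_zero _).mpr (log_mem_A (rpow_pos_of_pos hN' _) ?_)
    have := alg_rpow hN' (isAlgebraic_natCast (R := ℚ) N) (-x)
    push_cast at this
    exact this
  rw [e1, e2]
  simp [G]

/-- Odd distributions on `ℚ / ℤ`, seen as functions on `ℚ`. -/
structure IsOddDist {M : Type*} [AddCommGroup M] (f : ℚ → M) : Prop where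
  per : ∀ x, f (x + 1) = f x
  odd : ∀ x, f (-x) = - f x
  mul : ∀ N : ℕ, 0 < N → ∀ x, ∑ k ∈ Finset.range N, f ((x + k) / N) = f x

lemma G_add_nat (x : ℚ) (hx : 0 < x) (n : ℕ) : G ((x : ℝ) + n) = G x := by
  induction n with
  | zero => simp
  | succ n ih =>
    have := G_add_one (x + n) (by positivity)
    push_cast at this
    rw [← ih, ← this]
    push_cast
    congr 1
    ring

/-- The class of `log Γ` extended periodically to all rationals (with value `0` at integers). -/
noncomputable def h (x : ℚ) : W := G ((1 - Int.fract (-x) : ℚ) : ℝ)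

lemma h_eq (x : ℚ) (hx : 0 < x) : h x = G x := by
  have hc : 1 ≤ ⌈x⌉ := Int.one_le_ceil_iff.mpr hx
  obtain ⟨n, hn⟩ : ∃ n : ℕ, ⌈x⌉ - 1 = n := ⟨(⌈x⌉ - 1).toNat, by omega⟩
  have h1 : x = (1 - Int.fract (-x)) + n := by
    have h2 : Int.fract (-x) = -x + ⌈x⌉ := by
      rw [Int.fract, Int.floor_neg]; push_cast; ring
    have h3 : (⌈x⌉ : ℚ) = n + 1 := by
      have : ⌈x⌉ = n + 1 := by omega
      rw [this]; push_cast; ring
    rw [h2, h3]; ring
  have hpos : 0 < 1 - Int.fract (-x) := by linarith [Int.fract_lt_one (-x)]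
  unfold h
  conv_rhs => rw [h1]
  rw [← G_add_nat _ hpos n]
  push_cast
  rfl

lemma h_per (x : ℚ) : h (x + 1) = h x := by
  unfold h
  have : Int.fract (-(x + 1)) = Int.fract (-x) := by
    rw [show -(x + 1) = -x - 1 by ring]
    exact Int.fract_sub_one _
  rw [this]

lemma h_zero : h 0 = 0 := by simp [h, G_one]

lemma h_odd (x : ℚ) : h (-x) = - h x := by
  unfold h
  rw [neg_neg, eq_neg_iff_add_eq_zero]
  rcases eq_or_ne (Int.fract x) 0 with h0 | h0
  · have h1 : Int.fract (-x) = 0 := Int.fract_neg_eq_zero.mpr h0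
    rw [h0, h1]
    simp [G_one]
  · rw [Int.fract_neg h0]
    have hpos : 0 < Int.fract x := lt_of_le_of_ne (Int.fract_nonneg x) (Ne.symm h0)
    have := G_reflect (Int.fract x) hpos (Int.fract_lt_one x)
    rw [sub_sub_cancel, add_comm]
    rw [show ((1 - Int.fract x : ℚ) : ℝ) = 1 - ((Int.fract x : ℚ) : ℝ) by
      rw [Rat.cast_sub, Rat.cast_one]]
    exact this

lemma h_mul (N : ℕ) (hN : 0 < N) (x : ℚ) :
    ∑ k ∈ Finset.range N, h ((x + k) / N) = h x := by
  have hN' : (0 : ℚ) < N := Nat.cast_pos.mpr hN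
  have hpos : ∀ y : ℚ, 0 < y → ∑ k ∈ Finset.range N, h ((y + k) / N) = h y := by
    intro y hy
    rw [h_eq y hy, ← G_mul hN y hy]
    refine Finset.sum_congr rfl fun k _ => ?_
    rw [h_eq _ (by positivity)]
    push_cast
    rfl
  have hstep : ∀ y : ℚ, ∑ k ∈ Finset.range N, h ((y + 1 + k) / N) =
      ∑ k ∈ Finset.range N, h ((y + k) / N) := by
    intro y
    have e1 : ∑ k ∈ Finset.range N, h ((y + 1 + k) / N) + h (y / N) =
        ∑ k ∈ Finset.range (N + 1), h ((y + k) / N) := by
      rw [Finset.sum_range_succ']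
      simp only [Nat.cast_add, Nat.cast_one, Nat.cast_zero, add_zero]
      congr 1
      refine Finset.sum_congr rfl fun k _ => ?_
      congr 2
      ring
    rw [Finset.sum_range_succ] at e1
    have e2 : h ((y + N) / N) = h (y / N) := by
      rw [add_div, div_self hN'.ne', h_per]
    rw [e2] at e1
    exact add_right_cancel e1
  have hshift : ∀ (m : ℕ) (y : ℚ), ∑ k ∈ Finset.range N, h ((y + m + k) / N) =
      ∑ k ∈ Finset.range N, h ((y + k) / N) ∧ h (y + m) = h y := by
    intro m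
    induction m with
    | zero => intro y; simp
    | succ m ih =>
      intro y
      have h1 := ih (y + 1)
      push_cast
      constructor
      · rw [← hstep y, ← h1.1]
        refine Finset.sum_congr rfl fun k _ => ?_
        congr 2
        ring
      · rw [← h_per y, ← h1.2]
        congr 1
        ring
  obtain ⟨m, hm⟩ := exists_nat_gt (-x)
  have h1 := hshift m x
  rw [← h1.1, ← h1.2]
  exact hpos (x + m) (by linarith)

theorem h_dist : IsOddDist h := ⟨h_per, h_odd, h_mul⟩

end Pool.Agent.Helper24.GammaDist
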