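import Mathlib

/-!
Gauss's multiplication formula for the real Gamma function, up to a constant depending only on the
number of factors, via the Bohr-Mollerup theorem.
-/

set_option autoImplicit false

namespace Pool.Agent.Helper24.GammaMul

open Real Set

/-- The product occurring in Gauss's multiplication formula. -/
noncomputable def gprod (N : ℕ) (x : ℝ) : ℝ := ∏ k ∈ Finset.range N, Gamma ((x + k) / N)

lemma gprod_pos {N : ℕ} (hN : 0 < N) {x : ℝ} (hx : 0 < x) : 0 < gprod N x := by
  refine Finset.prod_pos fun k _ => Gamma_pos_of_pos ?_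
  have : (0 : ℝ) < N := Nat.cast_pos.mpr hN
  positivity

lemma gprod_add_one {N : ℕ} (hN : 0 < N) {x : ℝ} (hx : 0 < x) :
    gprod N (x + 1) = (x / N) * gprod N x := by
  have hN' : (0 : ℝ) < N := Nat.cast_pos.mpr hN
  have h1 : gprod N (x + 1) * Gamma (x / N) = gprod N x * Gamma ((x + N) / N) := by
    have e1 : gprod N (x + 1) * Gamma (x / N) =
        ∏ k ∈ Finset.range (N + 1), Gamma ((x + k) / N) := by
      rw [Finset.prod_range_succ']
      simp only [gprod, Nat.cast_add, Nat.cast_one, Nat.cast_zero, add_zero]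
      congr 1
      refine Finset.prod_congr rfl fun k _ => ?_
      rw [add_assoc, add_comm (1 : ℝ)]
    rw [e1, Finset.prod_range_succ]
    rfl
  have h2 : Gamma ((x + N) / N) = (x / N) * Gamma (x / N) := by
    rw [add_div, div_self hN'.ne', Gamma_add_one (by positivity)]
  rw [h2] at h1
  have h3 : Gamma (x / N) ≠ 0 := (Gamma_pos_of_pos (by positivity)).ne'
  have h4 : gprod N (x + 1) * Gamma (x / N) = ((x / N) * gprod N x) * Gamma (x / N) := by
    rw [h1]; ring
  exact mul_right_cancel₀ h3 h4

lemma convex_term {N : ℕ} (hN : 0 < N) (k : ℕ) :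
    ConvexOn ℝ (Ioi (0:ℝ)) (fun x => log (Gamma ((x + k) / N))) := by
  have hN' : (0 : ℝ) < N := Nat.cast_pos.mpr hN
  have h := convexOn_log_Gamma
  refine ⟨convex_Ioi _, fun x hx y hy a b ha hb hab => ?_⟩
  have hx' : (0 : ℝ) < (x + k) / N := div_pos (add_pos_of_pos_of_nonneg hx (Nat.cast_nonneg _)) hN'
  have hy' : (0 : ℝ) < (y + k) / N := div_pos (add_pos_of_pos_of_nonneg hy (Nat.cast_nonneg _)) hN'
  have h1 := h.2 hx' hy' ha hb hab
  simp only [smul_eq_mul, Function.comp] at h1 ⊢
  have h2 : a * ((x + k) / N) + b * ((y + k) / N) = (a * x + b * y + k) / N := by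
    have : (k : ℝ) = a * k + b * k := by rw [← add_mul, hab, one_mul]
    field_simp
    linear_combination -this
  rw [h2] at h1
  exact h1

lemma convex_sum {N : ℕ} (hN : 0 < N) (s : Finset ℕ) :
    ConvexOn ℝ (Ioi (0:ℝ)) (fun x => ∑ k ∈ s, log (Gamma ((x + k) / N))) := by
  classical
  induction s using Finset.induction_on with
  | empty => simpa using convexOn_const (0:ℝ) (convex_Ioi (0:ℝ))
  | insert a s ha ih =>
    simp only [Finset.sum_insert ha]
    exact (convex_term hN a).add ih

/-- Gauss's multiplication formula up to a constant. -/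
theorem gprod_eq {N : ℕ} (hN : 0 < N) {x : ℝ} (hx : 0 < x) :
    gprod N x = (N : ℝ) * gprod N 1 * (N : ℝ) ^ (-x) * Gamma x := by
  have hN' : (0 : ℝ) < N := Nat.cast_pos.mpr hN
  have hg1 : 0 < gprod N 1 := gprod_pos hN one_pos
  set f : ℝ → ℝ := fun y => (N : ℝ) ^ y * gprod N y / (N * gprod N 1) with hf
  have hfe : EqOn f Gamma (Ioi 0) := by
    refine fun y hy => eq_Gamma_of_log_convex (f := f) ?_ ?_ ?_ ?_ hy
    · have : EqOn (log ∘ f) (fun y => (y * log N + ∑ k ∈ Finset.range N, log (Gamma ((y + k) / N)))
          + (- log (N * gprod N 1))) (Ioi 0) := by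
        intro y hy
        have hy' : (0:ℝ) < y := hy
        simp only [Function.comp, hf]
        rw [log_div (mul_pos (rpow_pos_of_pos hN' _) (gprod_pos hN hy)).ne'
          (mul_pos hN' hg1).ne', log_mul (rpow_pos_of_pos hN' _).ne' (gprod_pos hN hy).ne',
          log_rpow hN']
        unfold gprod
        rw [log_prod]
        · ring
        · intro k _
          exact (Gamma_pos_of_pos (by positivity)).ne'
      refine ConvexOn.congr ?_ this.symm
      refine ConvexOn.add_const (ConvexOn.add ?_ (convex_sum hN _)) _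
      refine ⟨convex_Ioi _, fun x _ y _ a b _ _ _ => ?_⟩
      simp only [smul_eq_mul]
      apply le_of_eq; ring
    · intro y hy
      simp only [hf]
      rw [gprod_add_one hN hy, rpow_add hN', rpow_one]
      field_simp
    · intro y hy
      simp only [hf]
      have := gprod_pos hN hy
      positivity
    · simp only [hf, rpow_one]
      exact div_self (mul_pos hN' hg1).ne'
  have h := hfe hx
  simp only [hf] at h
  rw [← h, rpow_neg hN'.le]
  have : (N : ℝ) ^ x ≠ 0 := (rpow_pos_of_pos hN' x).ne'
  field_simp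

end Pool.Agent.Helper24.GammaMul
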