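import Pool.Agent.Helper24.GammaChar

/-!
Rank bound for the primitive Gamma values at level `q`, and the resulting bound for the
transcendence degree.
-/

set_option autoImplicit false

namespace Pool.Agent.Helper24.GammaRank

open Pool.Agent.Helper24.GammaDist Pool.Agent.Helper24.GammaChar
open Module

/-- The classes of the primitive Gamma values. -/
noncomputable def v (q : ℕ) [NeZero q] (u : (ZMod q)ˣ) : W :=
  h ((u : ZMod q).val / (q : ℚ))

lemma dist_comp (l : W →ₗ[ℚ] ℂ) : IsOddDist (fun x => l (h x)) := by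
  refine ⟨fun x => by rw [h_per], fun x => by rw [h_odd, map_neg], fun N hN x => ?_⟩
  rw [← map_sum, h_mul N hN]

lemma good_span (q : ℕ) [NeZero q] (hq : 1 < q) (l : W →ₗ[ℚ] ℂ) :
    (fun u : (ZMod q)ˣ => l (v q u)) ∈ Submodule.span ℂ
      (Set.range fun χ : {χ : DirichletCharacter ℂ q // Good q χ} =>
        (fun u : (ZMod q)ˣ => χ.1 (u : ZMod q))) := by
  classical
  have hf := dist_comp l
  have h1 : (fun u : (ZMod q)ˣ => l (v q u)) = ∑ χ : DirichletCharacter ℂ q,
      ((q.totient : ℂ)⁻¹ * ∑ w : (ZMod q)ˣ, χ ((w⁻¹ : (ZMod q)ˣ) : ZMod q) * l (v q w)) •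
        (fun u : (ZMod q)ˣ => χ (u : ZMod q)) := by
    funext u
    rw [Finset.sum_apply]
    exact expansion q (fun u => l (v q u)) u
  rw [h1]
  refine Submodule.sum_mem _ fun χ _ => ?_
  by_cases hχ : Good q χ
  · exact Submodule.smul_mem _ _ (Submodule.subset_span ⟨⟨χ, hχ⟩, rfl⟩)
  · have h2 := coeff_zero hf q hq χ hχ
    have h3 : ∑ w : (ZMod q)ˣ, χ ((w⁻¹ : (ZMod q)ˣ) : ZMod q) * l (v q w) = 0 := h2
    rw [h3, mul_zero, zero_smul]
    exact Submodule.zero_mem _

/-- The rank of the span of the primitive values is at most the number of good characters. -/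
lemma rank_le (q : ℕ) [NeZero q] (hq : 1 < q) :
    finrank ℚ (Submodule.span ℚ (Set.range (v q))) ≤
      Nat.card {χ : DirichletCharacter ℂ q // Good q χ} := by
  classical
  set U := Submodule.span ℚ (Set.range (v q)) with hU
  have hfin : FiniteDimensional ℚ U := FiniteDimensional.span_of_finite ℚ (Set.finite_range _)
  have hmem : ∀ u, v q u ∈ U := fun u => Submodule.subset_span ⟨u, rfl⟩
  let Φ : (U →ₗ[ℚ] ℂ) →ₗ[ℂ] ((ZMod q)ˣ → ℂ) :=
    { toFun := fun l u => l ⟨v q u, hmem u⟩
      map_add' := fun l m => rfl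
      map_smul' := fun c l => rfl }
  have hinj : Function.Injective Φ := by
    rw [← LinearMap.ker_eq_bot, LinearMap.ker_eq_bot']
    intro l hl
    have h1 : ∀ u, l ⟨v q u, hmem u⟩ = 0 := fun u => congrFun hl u
    ext ⟨x, hx⟩
    rw [LinearMap.zero_apply]
    have h2 : U ≤ (LinearMap.ker l).map U.subtype := by
      refine Submodule.span_le.mpr ?_
      rintro _ ⟨u, rfl⟩
      exact ⟨⟨v q u, hmem u⟩, h1 u, rfl⟩
    obtain ⟨y, hy, hyx⟩ := h2 hx
    have : y = ⟨x, hx⟩ := Subtype.ext hyx
    rw [← this]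
    exact hy
  have hrange : LinearMap.range Φ ≤ Submodule.span ℂ
      (Set.range fun χ : {χ : DirichletCharacter ℂ q // Good q χ} =>
        (fun u : (ZMod q)ˣ => χ.1 (u : ZMod q))) := by
    rintro _ ⟨l, rfl⟩
    obtain ⟨l', hl'⟩ := l.exists_extend
    have : Φ l = fun u : (ZMod q)ˣ => l' (v q u) := by
      funext u
      have := congrArg (fun m => m ⟨v q u, hmem u⟩) hl'
      exact this.symm
    rw [this]
    exact good_span q hq l'
  have h1 : finrank ℂ (U →ₗ[ℚ] ℂ) = finrank ℚ U := Module.finrank_linearMap_self ℚ ℂ U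
  rw [← h1, ← LinearMap.finrank_range_of_inj hinj]
  refine (Submodule.finrank_mono hrange).trans ?_
  have h2 := finrank_range_le_card (R := ℂ)
    (fun χ : {χ : DirichletCharacter ℂ q // Good q χ} =>
        (fun u : (ZMod q)ˣ => χ.1 (u : ZMod q)))
  rw [Set.finrank] at h2
  rw [Nat.card_eq_fintype_card]
  exact h2

/-- a subset of primitive residues whose classes span -/
lemma exists_basis (q : ℕ) [NeZero q] (hq : 1 < q) :
    ∃ B : Finset (ZMod q)ˣ, B.card ≤ Nat.card {χ : DirichletCharacter ℂ q // Good q χ} ∧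
      ∀ u, v q u ∈ Submodule.span ℚ (v q '' (B : Set (ZMod q)ˣ)) := by
  classical
  obtain ⟨κ, a, ha, hsp, hli⟩ := exists_linearIndependent' ℚ (v q)
  have : Fintype κ := Fintype.ofInjective a ha
  refine ⟨Finset.univ.image a, ?_, ?_⟩
  · rw [Finset.card_image_of_injective _ ha, Finset.card_univ]
    refine le_trans ?_ (rank_le q hq)
    rw [← hsp, finrank_span_eq_card hli]
  · intro u
    have h1 : v q '' ((Finset.univ.image a : Finset (ZMod q)ˣ) : Set (ZMod q)ˣ) =
        Set.range (v q ∘ a) := by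
      rw [Finset.coe_image, Finset.coe_univ, Set.image_univ, ← Set.range_comp]
    rw [h1, hsp]
    exact Submodule.subset_span ⟨u, rfl⟩

end Pool.Agent.Helper24.GammaRank
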