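import Mathlib

/-!
Definitions for problem MP_274814_nt (Lang-Rohrlich).
-/

set_option autoImplicit false

namespace Pool.Agent.Helper24.LRDefs

/-- The field `F_q` of the problem: the subfield of `ℂ` generated by `π` and the numbers `Γ(a/q)`
with `1 ≤ a ≤ q - 1` and `gcd(a, q) = 1`. -/
noncomputable def F (q : ℕ) : IntermediateField ℚ ℂ :=
  IntermediateField.adjoin ℚ
    ({(Real.pi : ℂ)} ∪ {z : ℂ | ∃ a : ℕ, 1 ≤ a ∧ a ≤ q - 1 ∧ Nat.gcd a q = 1 ∧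
      z = Complex.Gamma ((a : ℂ) / (q : ℂ))})

/-- The subfield of `ℂ` generated by `π` and all the numbers `Γ(a/q)`, `1 ≤ a ≤ q - 1`. -/
noncomputable def Fall (q : ℕ) : IntermediateField ℚ ℂ :=
  IntermediateField.adjoin ℚ
    ({(Real.pi : ℂ)} ∪ {z : ℂ | ∃ a : ℕ, 1 ≤ a ∧ a ≤ q - 1 ∧
      z = Complex.Gamma ((a : ℂ) / (q : ℂ))})

end Pool.Agent.Helper24.LRDefs
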