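import Pool.Agent.Helper24.GammaRank
import Pool.Agent.Helper24.LRDefs

/-!
From ranks to transcendence degrees.
-/

set_option autoImplicit false

namespace Pool.Agent.Helper24.GammaTr

open Pool.Agent.Helper24.GammaDist Pool.Agent.Helper24.GammaChar Pool.Agent.Helper24.GammaRank
open Pool.Agent.Helper24.LRDefs
open Module AlgebraicIndependent

lemma alg_rpow' (K : IntermediateField ℚ ℂ) {y : ℝ} (hy : 0 < y) (h : IsAlgebraic K (y : ℂ))
    (r : ℚ) : IsAlgebraic K ((y ^ (r : ℝ) : ℝ) : ℂ) := by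
  have hd : 0 < r.den := r.den_pos
  refine IsAlgebraic.of_pow hd ?_
  have h1 : ((y ^ (r : ℝ) : ℝ) : ℂ) ^ r.den = (y : ℂ) ^ (r.num : ℤ) := by
    rw [← Complex.ofReal_pow, ← Real.rpow_natCast, ← Real.rpow_mul hy.le, ← Complex.ofReal_zpow,
      ← Real.rpow_intCast]
    congr 2
    have : (r : ℝ) * (r.den : ℝ) = (r.num : ℝ) := by
      exact_mod_cast Rat.mul_den_eq_num r
    rw [this]
  rw [h1]
  rcases Int.eq_nat_or_neg r.num with ⟨m, hm | hm⟩
  · rw [hm, zpow_natCast]; exact h.pow m
  · rw [hm, zpow_neg, zpow_natCast]; exact (h.pow m).inv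

/-- real `x` with `exp x` algebraic over `K` -/
def CC (K : IntermediateField ℚ ℂ) : Submodule ℚ ℝ where
  carrier := {x | IsAlgebraic K ((Real.exp x : ℝ) : ℂ)}
  add_mem' := by
    intro x y hx hy
    simp only [Set.mem_ofPred_eq] at *
    rw [Real.exp_add, Complex.ofReal_mul]
    exact hx.mul hy
  zero_mem' := by
    simp only [Set.mem_ofPred_eq, Real.exp_zero, Complex.ofReal_one]
    exact isAlgebraic_one
  smul_mem' := by
    intro r x hx
    simp only [Set.mem_ofPred_eq] at *
    have : Real.exp (r • x) = (Real.exp x) ^ (r : ℝ) := by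
      rw [← Real.exp_mul, Rat.smul_def, mul_comm]
    rw [this]
    exact alg_rpow' K (Real.exp_pos x) hx r

lemma isAlg_of_mem (K : IntermediateField ℚ ℂ) {z : ℂ} (hz : z ∈ K) : IsAlgebraic K z :=
  isAlgebraic_algebraMap (⟨z, hz⟩ : K)

lemma isAlg_of_alg (K : IntermediateField ℚ ℂ) {y : ℝ} (hy : IsAlgebraic ℚ y) :
    IsAlgebraic K (y : ℂ) := by
  have h1 : IsAlgebraic ℚ (y : ℂ) := by
    have := hy.algebraMap (A := ℂ)
    exact this
  exact h1.tower_top K

lemma A_le_CC (K : IntermediateField ℚ ℂ) (hpi : (Real.pi : ℂ) ∈ K) : A ≤ CC K := by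
  rintro x ⟨s, hs⟩
  change IsAlgebraic K ((Real.exp x : ℝ) : ℂ)
  have h1 : Real.exp x = Real.exp (x - s * Real.log Real.pi) * Real.pi ^ (s : ℝ) := by
    rw [Real.rpow_def_of_pos Real.pi_pos, ← Real.exp_add]
    congr 1; ring
  rw [h1, Complex.ofReal_mul]
  exact (isAlg_of_alg K hs).mul (alg_rpow' K Real.pi_pos (isAlg_of_mem K hpi) s)

lemma log_Gamma_mem (K : IntermediateField ℚ ℂ) {x : ℝ} (hx : 0 < x) :
    Real.log (Real.Gamma x) ∈ CC K ↔ IsAlgebraic K ((Real.Gamma x : ℝ) : ℂ) := by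
  change IsAlgebraic K ((Real.exp (Real.log (Real.Gamma x)) : ℝ) : ℂ) ↔ _
  rw [Real.exp_log (Real.Gamma_pos_of_pos hx)]

lemma unit_val_pos {q : ℕ} [NeZero q] (hq : 1 < q) (u : (ZMod q)ˣ) : 0 < (u : ZMod q).val := by
  have : Fact (1 < q) := ⟨hq⟩
  rw [Nat.pos_iff_ne_zero, Ne, ZMod.val_eq_zero]
  exact u.ne_zero

lemma v_eq {q : ℕ} [NeZero q] (hq : 1 < q) (u : (ZMod q)ˣ) :
    v q u = Submodule.Quotient.mk (Real.log (Real.Gamma (((u : ZMod q).val : ℝ) / (q : ℝ)))) := by
  have h1 := unit_val_pos hq u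
  have hq' : 0 < q := by omega
  unfold v
  rw [h_eq _ (by positivity)]
  unfold G
  push_cast
  rfl

/-- `Γ(u/q)` -/
noncomputable def gam (q : ℕ) (u : (ZMod q)ˣ) : ℂ := Complex.Gamma (((u : ZMod q).val : ℂ) / (q : ℂ))

lemma gam_eq (q : ℕ) (u : (ZMod q)ˣ) :
    gam q u = ((Real.Gamma (((u : ZMod q).val : ℝ) / (q : ℝ)) : ℝ) : ℂ) := by
  unfold gam
  rw [← Complex.Gamma_ofReal]
  push_cast
  rfl

lemma gam_alg {q : ℕ} [NeZero q] (hq : 1 < q) (B : Finset (ZMod q)ˣ) (K : IntermediateField ℚ ℂ)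
    (hpi : (Real.pi : ℂ) ∈ K) (hB : ∀ b ∈ B, IsAlgebraic K (gam q b)) (u : (ZMod q)ˣ)
    (hu : v q u ∈ Submodule.span ℚ (v q '' (B : Set (ZMod q)ˣ))) : IsAlgebraic K (gam q u) := by
  have hq' : 0 < q := by omega
  have hpos : ∀ u : (ZMod q)ˣ, (0:ℝ) < ((u : ZMod q).val : ℝ) / (q : ℝ) := fun u => by
    have := unit_val_pos hq u
    positivity
  have h1 : Submodule.span ℚ (v q '' (B : Set (ZMod q)ˣ)) ≤ (CC K).map A.mkQ := by
    rw [Submodule.span_le]
    rintro _ ⟨b, hb, rfl⟩
    refine ⟨Real.log (Real.Gamma (((b : ZMod q).val : ℝ) / (q : ℝ))), ?_, ?_⟩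
    · rw [SetLike.mem_coe, log_Gamma_mem K (hpos b), ← gam_eq]
      exact hB b hb
    · rw [v_eq hq]; rfl
  obtain ⟨y, hy, hyx⟩ := h1 hu
  rw [v_eq hq] at hyx
  have h2 : y - Real.log (Real.Gamma (((u : ZMod q).val : ℝ) / (q : ℝ))) ∈ A := by
    rw [← Submodule.Quotient.eq]
    exact hyx
  have h3 := Submodule.sub_mem _ hy (A_le_CC K hpi h2)
  rw [sub_sub_cancel] at h3
  rw [gam_eq, ← log_Gamma_mem K (hpos u)]
  exact h3

/-- transcendence degree of a field generated by a set, inside a bigger algebraic field. -/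
lemma trdeg_le_of_alg_gen {k E : Type} [Field k] [Field E] [Algebra k E]
    (L : IntermediateField k E) (S : Set E)
    (h : ∀ z ∈ L, IsAlgebraic (IntermediateField.adjoin k S) z) :
    Algebra.trdeg k L ≤ Cardinal.mk S := by
  set K := IntermediateField.adjoin k S with hK
  set M : IntermediateField K E := algebraicClosure K E with hM
  have hLM : L ≤ M.restrictScalars k := by
    intro z hz
    rw [IntermediateField.mem_restrictScalars, hM, mem_algebraicClosure_iff]
    exact h z hz
  have h1 : Algebra.trdeg k L ≤ Algebra.trdeg k (M.restrictScalars k) :=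
    trdeg_le_of_injective (IntermediateField.inclusion hLM)
      (IntermediateField.inclusion hLM).injective
  refine h1.trans ?_
  have h2 : Algebra.trdeg k (M.restrictScalars k) = Algebra.trdeg k M := rfl
  rw [h2]
  have hMalg : Algebra.IsAlgebraic K M := algebraicClosure.isAlgebraic K E
  have hfaith : FaithfulSMul K M :=
    (faithfulSMul_iff_algebraMap_injective K M).mpr (algebraMap K M).injective
  have hfaith2 : FaithfulSMul k K :=
    (faithfulSMul_iff_algebraMap_injective k K).mpr (algebraMap k K).injective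
  have h3 : Algebra.trdeg k K + Algebra.trdeg K M = Algebra.trdeg k M := trdeg_add_eq k K
  have h4 : Algebra.trdeg K M = 0 := trdeg_eq_zero
  rw [← h3, h4, add_zero]
  set s : Set K := Subtype.val ⁻¹' S with hs
  have htop : IntermediateField.adjoin k s = ⊤ := by
    apply IntermediateField.lift_injective
    have himg : (Subtype.val '' s : Set E) = S := by
      ext x
      constructor
      · rintro ⟨y, hy, rfl⟩
        exact hy
      · intro hx
        exact ⟨⟨x, IntermediateField.subset_adjoin k S hx⟩, hx, rfl⟩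
    rw [IntermediateField.lift_adjoin, IntermediateField.lift_top, himg]
  have halg : Algebra.IsAlgebraic (Algebra.adjoin k s) K := by
    rw [← IntermediateField.isAlgebraic_adjoin_iff_top]
    refine ⟨fun x => ?_⟩
    have hx : x ∈ IntermediateField.adjoin k s := by rw [htop]; trivial
    exact isAlgebraic_algebraMap (⟨x, hx⟩ : IntermediateField.adjoin k s)
  refine (Algebra.IsAlgebraic.trdeg_le_cardinalMk k s).trans ?_
  exact Cardinal.mk_le_of_injective (f := fun x : s => (⟨x.1.1, x.2⟩ : S)) (by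
    intro x y hxy
    apply Subtype.ext
    apply Subtype.ext
    exact Subtype.mk.inj hxy)

lemma trdeg_le_of_alg (L : IntermediateField ℚ ℂ) (S : Set ℂ)
    (h : ∀ z ∈ L, IsAlgebraic (IntermediateField.adjoin ℚ S) z) :
    Algebra.trdeg ℚ L ≤ Cardinal.mk S := by
  exact trdeg_le_of_alg_gen L S h

theorem trdeg_F_le (q : ℕ) (hq : 2 < q) :
    Algebra.trdeg ℚ (F q) ≤
      ((1 + Nat.card {χ : DirichletCharacter ℂ q // Good q χ} : ℕ) : Cardinal) := by
  classical
  have : NeZero q := ⟨by omega⟩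
  have hq1 : 1 < q := by omega
  obtain ⟨B, hB, hspan⟩ := exists_basis q hq1
  set S : Set ℂ := ((insert (Real.pi : ℂ) (B.image (gam q)) : Finset ℂ) : Set ℂ) with hS
  have hSK : S ⊆ IntermediateField.adjoin ℚ S := IntermediateField.subset_adjoin ℚ S
  have hpi : (Real.pi : ℂ) ∈ IntermediateField.adjoin ℚ S := hSK (by simp [hS])
  have hBalg : ∀ b ∈ B, IsAlgebraic (IntermediateField.adjoin ℚ S) (gam q b) := by
    intro b hb
    apply isAlg_of_mem
    apply hSK
    rw [hS, Finset.coe_insert, Finset.coe_image]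
    exact Set.mem_insert_of_mem _ ⟨b, hb, rfl⟩
  have hle : F q ≤ (algebraicClosure (IntermediateField.adjoin ℚ S) ℂ).restrictScalars ℚ := by
    unfold F
    rw [IntermediateField.adjoin_le_iff]
    rintro z (hz | ⟨a, ha1, ha2, hcop, rfl⟩)
    · rw [Set.mem_singleton_iff] at hz
      rw [hz]
      change _ ∈ IntermediateField.restrictScalars ℚ _
      rw [IntermediateField.mem_restrictScalars, mem_algebraicClosure_iff]
      exact isAlg_of_mem _ hpi
    · change _ ∈ IntermediateField.restrictScalars ℚ _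
      rw [IntermediateField.mem_restrictScalars, mem_algebraicClosure_iff]
      have h1 := gam_alg hq1 B _ hpi hBalg (ZMod.unitOfCoprime a hcop) (hspan _)
      have h2 : gam q (ZMod.unitOfCoprime a hcop) = Complex.Gamma ((a : ℂ) / (q : ℂ)) := by
        unfold gam
        rw [ZMod.coe_unitOfCoprime, ZMod.val_cast_of_lt (by omega)]
      rw [h2] at h1
      exact h1
  have h1 := trdeg_le_of_alg (F q) S (fun z hz => by
    have := hle hz
    rwa [IntermediateField.mem_restrictScalars, mem_algebraicClosure_iff] at this)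
  refine h1.trans ?_
  have hcard : Cardinal.mk S = ((insert (Real.pi : ℂ) (B.image (gam q)) : Finset ℂ).card : Cardinal) :=
    Cardinal.mk_coe_finset
  rw [hcard, Nat.cast_le]
  refine (Finset.card_insert_le _ _).trans ?_
  have := (Finset.card_image_le (s := B) (f := gam q)).trans hB
  omega

end Pool.Agent.Helper24.GammaTr
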