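import Mathlib

set_option autoImplicit false

namespace Pool.Agent.Helper24.Lag1

open Polynomial Filter Topology

/-- The shift on complex sequences. -/
noncomputable def E : Module.End ℂ (ℕ → ℂ) := LinearMap.funLeft ℂ ℂ Nat.succ

lemma E_apply (x : ℕ → ℂ) (n : ℕ) : E x n = x (n + 1) := rfl

lemma E_pow_apply (j : ℕ) (x : ℕ → ℂ) (n : ℕ) : (E ^ j) x n = x (n + j) := by
  induction j generalizing x n with
  | zero => simp
  | succ j ih =>
    rw [pow_succ, Module.End.mul_apply, ih, E_apply]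
    congr 1

lemma aeval_E_apply (Q : ℂ[X]) (x : ℕ → ℂ) (n : ℕ) :
    (aeval E Q) x n = ∑ j ∈ Finset.range (Q.natDegree + 1), Q.coeff j * x (n + j) := by
  rw [aeval_eq_sum_range]
  simp [LinearMap.sum_apply, E_pow_apply]

/-- polynomial times geometric sequence -/
noncomputable def pg (p : ℂ[X]) (z : ℂ) : ℕ → ℂ := fun n => p.eval (n : ℂ) * z ^ n

lemma pg_apply (p : ℂ[X]) (z : ℂ) (n : ℕ) : pg p z n = p.eval (n : ℂ) * z ^ n := rfl

lemma step (p : ℂ[X]) (z : ℂ) :
    (E - algebraMap ℂ (Module.End ℂ (ℕ → ℂ)) z) (pg p z) =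
      pg (C z * (taylor 1 p - p)) z := by
  funext n
  simp only [LinearMap.sub_apply, Module.algebraMap_end_apply]
  simp only [Pi.sub_apply, E_apply, Pi.smul_apply, smul_eq_mul, pg_apply, eval_mul, eval_C,
    eval_sub, taylor_eval, Nat.cast_add, Nat.cast_one]
  ring

lemma natDegree_taylor_sub (p : ℂ[X]) (k : ℕ) (h : p.natDegree ≤ k + 1) :
    (taylor 1 p - p).natDegree ≤ k := by
  rw [natDegree_le_iff_coeff_eq_zero]
  intro N hN
  rw [coeff_sub]
  rcases lt_or_eq_of_le (Nat.succ_le_of_lt hN) with h1 | h1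
  · have h2 : p.natDegree < N := by omega
    rw [coeff_eq_zero_of_natDegree_lt h2, coeff_eq_zero_of_natDegree_lt]
    · simp
    · rw [natDegree_taylor]; exact h2
  · rcases lt_or_eq_of_le h with h3 | h3
    · have h2 : p.natDegree < N := by omega
      rw [coeff_eq_zero_of_natDegree_lt h2, coeff_eq_zero_of_natDegree_lt]
      · simp
      · rw [natDegree_taylor]; exact h2
    · have h4 : N = p.natDegree := by omega
      rw [h4, coeff_taylor_natDegree, leadingCoeff, sub_self]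

lemma kill (k : ℕ) (z : ℂ) : ∀ p : ℂ[X], p.natDegree ≤ k →
    ((E - algebraMap ℂ (Module.End ℂ (ℕ → ℂ)) z) ^ (k + 1)) (pg p z) = 0 := by
  induction k with
  | zero =>
    intro p hp
    rw [zero_add, pow_one, step]
    have : p = C (p.coeff 0) := eq_C_of_natDegree_le_zero hp
    rw [this, taylor_C]
    funext n; simp [pg]
  | succ k ih =>
    intro p hp
    rw [pow_succ, Module.End.mul_apply, step]
    apply ih
    refine (natDegree_C_mul_le _ _).trans (natDegree_taylor_sub p k hp)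

lemma aeval_kill (Q : ℂ[X]) (k : ℕ) (z : ℂ) (hQ : (X - C z) ^ (k + 1) ∣ Q) (p : ℂ[X])
    (hp : p.natDegree ≤ k) : (aeval E Q) (pg p z) = 0 := by
  obtain ⟨R, rfl⟩ := hQ
  rw [mul_comm, map_mul, Module.End.mul_apply, map_pow, map_sub, aeval_X, aeval_C, kill k z p hp,
    map_zero]

/-- bounded sequences -/
def Bdd : Submodule ℂ (ℕ → ℂ) where
  carrier := {x | ∃ C : ℝ, ∀ n, ‖x n‖ ≤ C}
  add_mem' := by
    rintro x y ⟨C, hC⟩ ⟨D, hD⟩
    exact ⟨C + D, fun n => (norm_add_le _ _).trans (add_le_add (hC n) (hD n))⟩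
  zero_mem' := ⟨0, fun n => by simp⟩
  smul_mem' := by
    rintro c x ⟨C, hC⟩
    refine ⟨‖c‖ * C, fun n => ?_⟩
    rw [Pi.smul_apply, norm_smul]
    exact mul_le_mul_of_nonneg_left (hC n) (norm_nonneg _)

lemma Bdd_le : Bdd ≤ Bdd.comap E := by
  rintro x ⟨C, hC⟩
  exact ⟨C, fun n => hC (n + 1)⟩

/-- induced shift on the quotient -/
noncomputable def Eb (W : Submodule ℂ (ℕ → ℂ)) (hW : W ≤ W.comap E) :
    Module.End ℂ ((ℕ → ℂ) ⧸ W) := W.mapQ W E hW

lemma Eb_pow (W : Submodule ℂ (ℕ → ℂ)) (hW : W ≤ W.comap E) (z : ℂ) (j : ℕ) (x : ℕ → ℂ) :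
    ((Eb W hW - algebraMap ℂ (Module.End ℂ ((ℕ → ℂ) ⧸ W)) z) ^ j) (Submodule.Quotient.mk x) =
      Submodule.Quotient.mk (((E - algebraMap ℂ (Module.End ℂ (ℕ → ℂ)) z) ^ j) x) := by
  induction j generalizing x with
  | zero => simp
  | succ j ih =>
    rw [pow_succ, pow_succ, Module.End.mul_apply, Module.End.mul_apply, ← ih]
    congr 1

lemma sum_mem_each (W : Submodule ℂ (ℕ → ℂ)) (hW : W ≤ W.comap E) (S : Finset ℂ)
    (h : ℂ → ℂ[X]) (k : ℕ) (hk : ∀ z ∈ S, (h z).natDegree ≤ k)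
    (hb : (∑ z ∈ S, pg (h z) z) ∈ W) : ∀ z ∈ S, pg (h z) z ∈ W := by
  have hind := (Eb W hW).independent_genEigenspace ((k + 1 : ℕ) : ℕ∞)
  rw [iSupIndep_iff_finsetSum_eq_zero_imp_eq_zero] at hind
  intro z hz
  rw [← Submodule.Quotient.mk_eq_zero]
  refine hind S (fun z => Submodule.Quotient.mk (pg (h z) z)) ?_ ?_ z hz
  · intro w hw
    rw [Module.End.mem_genEigenspace_nat]
    rw [LinearMap.mem_ker]
    have := Eb_pow W hW w (k + 1) (pg (h w) w)
    rw [kill k w (h w) (hk w hw), Submodule.Quotient.mk_zero] at this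
    simpa [Algebra.algebraMap_eq_smul_one] using this
  · rw [← Submodule.Quotient.mk_eq_zero] at hb
    rw [← hb]
    exact (map_sum (Submodule.mkQ W) _ _).symm

lemma single (p : ℂ[X]) (z : ℂ) (hz : 1 < ‖z‖) (h : pg p z ∈ Bdd) : p = 0 := by
  by_contra hp
  obtain ⟨C, hC⟩ := h
  have key : ∃ c : ℝ, 0 < c ∧ ∀ᶠ n : ℕ in atTop, c ≤ ‖p.eval (n : ℂ)‖ := by
    rcases Nat.eq_zero_or_pos p.natDegree with hd | hd
    · have hpc : p = Polynomial.C (p.coeff 0) := eq_C_of_natDegree_le_zero hd.le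
      refine ⟨‖p.coeff 0‖, ?_, ?_⟩
      · rw [norm_pos_iff]
        intro h0
        rw [h0] at hpc
        exact hp (by rw [hpc]; simp)
      · refine Eventually.of_forall fun n => ?_
        conv_rhs => rw [hpc]
        simp
    · refine ⟨1, one_pos, ?_⟩
      have := Polynomial.tendsto_norm_atTop (R := ℂ) p (natDegree_pos_iff_degree_pos.mp hd)
        (l := (atTop : Filter ℕ)) (z := fun n : ℕ => (n : ℂ)) (by
          simpa using tendsto_natCast_atTop_atTop (R := ℝ))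
      exact this.eventually_ge_atTop 1
  obtain ⟨c, hc, hev⟩ := key
  have h1 : Tendsto (fun n : ℕ => c * ‖z‖ ^ n) atTop atTop :=
    (tendsto_pow_atTop_atTop_of_one_lt hz).const_mul_atTop hc
  obtain ⟨n, hn1, hn2⟩ := (hev.and (h1.eventually_gt_atTop C)).exists
  have h3 := hC n
  rw [pg, norm_mul, norm_pow] at h3
  have h4 : c * ‖z‖ ^ n ≤ ‖p.eval (n : ℂ)‖ * ‖z‖ ^ n :=
    mul_le_mul_of_nonneg_right hn1 (by positivity)
  linarith

lemma bounded_zero (S : Finset ℂ) (hS : ∀ z ∈ S, 1 < ‖z‖) (h : ℂ → ℂ[X]) (k : ℕ)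
    (hk : ∀ z ∈ S, (h z).natDegree ≤ k) (hb : (∑ z ∈ S, pg (h z) z) ∈ Bdd) :
    ∀ z ∈ S, h z = 0 := fun z hz =>
  single (h z) z (hS z hz) (sum_mem_each Bdd Bdd_le S h k hk hb z hz)

/-- sequences tending to zero -/
def Czero : Submodule ℂ (ℕ → ℂ) where
  carrier := {x | Tendsto x atTop (𝓝 0)}
  add_mem' := by
    intro x y hx hy
    have h := Tendsto.add hx hy
    rw [add_zero] at h
    exact h
  zero_mem' := tendsto_const_nhds
  smul_mem' := by
    intro c x hx
    have h := Tendsto.const_smul hx c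
    rw [smul_zero] at h
    exact h

lemma Czero_le : Czero ≤ Czero.comap E := by
  intro x hx
  exact (tendsto_add_atTop_iff_nat 1).mpr hx

lemma czero_zero (S : Finset ℂ) (hS : ∀ z ∈ S, ‖z‖ = 1) (c : ℂ → ℂ)
    (hb : Tendsto (fun n : ℕ => ∑ z ∈ S, c z * z ^ n) atTop (𝓝 0)) :
    ∀ z ∈ S, c z = 0 := by
  intro z hz
  have h1 : (∑ z ∈ S, pg (C (c z)) z) ∈ Czero := by
    change Tendsto _ _ _
    convert hb using 1
    funext n
    rw [Finset.sum_apply]
    simp [pg_apply]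
  have h2 := sum_mem_each Czero Czero_le S (fun z => C (c z)) 0 (fun z _ => by simp) h1 z hz
  have h3 : Tendsto (pg (C (c z)) z) atTop (𝓝 0) := h2
  have h4 : Tendsto (fun _ : ℕ => ‖c z‖) atTop (𝓝 0) := by
    have := h3.norm
    rw [norm_zero] at this
    convert this using 1
    funext n
    simp [pg_apply, hS z hz]
  have h5 := tendsto_nhds_unique h4 tendsto_const_nhds
  exact norm_eq_zero.mp h5.symm

end Pool.Agent.Helper24.Lag1
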