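import Mathlib

/-!
Definitions for problem MP_6c75e4_nt (multiplicative Lagrange spectra).
-/

set_option autoImplicit false

namespace Pool.Agent.Helper24.LagDefs

open Polynomial Filter

/-- Distance from a real number to the nearest integer. -/
noncomputable def distInt (x : ℝ) : ℝ := |x - round x|

/-- The polynomials of the problem: monic, irreducible over `ℤ`, non-zero at `0`, with a root of
modulus `> 1`. -/
structure Admissible (P : ℤ[X]) : Prop where
  monic : P.Monic
  irreducible : Irreducible P
  eval_zero : P.eval 0 ≠ 0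
  expanding : ∃ z : ℂ, aeval z P = 0 ∧ 1 < ‖z‖

/-- `P` is hyperbolic if no complex root has modulus one. -/
def Hyperbolic (P : ℤ[X]) : Prop := ∀ z : ℂ, aeval z P = 0 → ‖z‖ ≠ 1

/-- The finite set of expanding roots (modulus `> 1`) of `P`. -/
noncomputable def expRoots (P : ℤ[X]) : Finset ℂ :=
  open Classical in (P.aroots ℂ).toFinset.filter (fun z => 1 < ‖z‖)

/-- The tuples `g = (g_z)`, indexed by the expanding roots `z` of `P`, of complex polynomials of
degree at most `k` with `g_{conj z} = conj (g_z)` (so `g_z` is real for real `z`). -/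
def Xi (P : ℤ[X]) (k : ℕ) : Set (ℂ → ℂ[X]) :=
  {g | ∀ z ∈ expRoots P, (g z).natDegree ≤ k ∧
    g (starRingEnd ℂ z) = (g z).map (starRingEnd ℂ)}

/-- The sequence `x_n(g) = ∑ g_z(n) z^n`, the sum being over the expanding roots `z`. -/
noncomputable def xseq (P : ℤ[X]) (g : ℂ → ℂ[X]) (n : ℕ) : ℂ :=
  ∑ z ∈ expRoots P, (g z).eval (n : ℂ) * z ^ n

/-- The multiplicative Lagrange spectrum of order `k`. -/
noncomputable def mulLagrangeSpectrum (P : ℤ[X]) (k : ℕ) : Set ℝ :=
  {v | ∃ g ∈ Xi P k, limsup (fun n : ℕ => distInt (xseq P g n).re) atTop = v}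

end Pool.Agent.Helper24.LagDefs
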