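import Pool.Agent.Helper24.Lag1
import Pool.Agent.Helper24.LagDefs

set_option autoImplicit false

namespace Pool.Agent.Helper24.Lag2

open Polynomial Filter Topology Pool.Agent.Helper24.Lag1 Pool.Agent.Helper24.LagDefs

lemma mem_expRoots {P : ℤ[X]} (hP : P ≠ 0) (z : ℂ) :
    z ∈ expRoots P ↔ aeval z P = 0 ∧ 1 < ‖z‖ := by
  classical
  unfold expRoots
  rw [Finset.mem_filter, Multiset.mem_toFinset, mem_aroots]
  simp [hP]

lemma aeval_conj (P : ℤ[X]) (z : ℂ) :
    aeval (starRingEnd ℂ z) P = starRingEnd ℂ (aeval z P) := by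
  rw [aeval_def, aeval_def, hom_eval₂]
  congr 1
  ext; simp

lemma conj_mem {P : ℤ[X]} (hP : P ≠ 0) {z : ℂ} (hz : z ∈ expRoots P) :
    starRingEnd ℂ z ∈ expRoots P := by
  rw [mem_expRoots hP] at hz ⊢
  refine ⟨by rw [aeval_conj, hz.1, map_zero], by simpa using hz.2⟩

lemma eval_map_conj (p : ℂ[X]) (n : ℕ) :
    (p.map (starRingEnd ℂ)).eval (n : ℂ) = starRingEnd ℂ (p.eval (n : ℂ)) := by
  rw [eval_map]
  have : (n : ℂ) = starRingEnd ℂ (n : ℂ) := by simp
  conv_lhs => rw [this]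
  rw [eval₂_hom]

lemma xseq_conj {P : ℤ[X]} (hP : P ≠ 0) {k : ℕ} {g : ℂ → ℂ[X]} (hg : g ∈ Xi P k) (n : ℕ) :
    starRingEnd ℂ (xseq P g n) = xseq P g n := by
  unfold xseq
  rw [map_sum]
  refine Finset.sum_bij (fun z _ => starRingEnd ℂ z) (fun z hz => conj_mem hP hz) ?_ ?_ ?_
  · intro a _ b _ h
    exact (starRingEnd ℂ).injective h
  · intro b hb
    exact ⟨starRingEnd ℂ b, conj_mem hP hb, by simp⟩
  · intro z hz
    rw [map_mul, map_pow, (hg z hz).2, eval_map_conj]

lemma xseq_real {P : ℤ[X]} (hP : P ≠ 0) {k : ℕ} {g : ℂ → ℂ[X]} (hg : g ∈ Xi P k) (n : ℕ) :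
    ((xseq P g n).re : ℂ) = xseq P g n := by
  exact Complex.conj_eq_iff_real.mp (xseq_conj hP hg n) |>.elim (fun r hr => by rw [hr]; simp)

lemma distInt_nonneg (x : ℝ) : 0 ≤ distInt x := abs_nonneg _

lemma distInt_le_half (x : ℝ) : distInt x ≤ 1 / 2 := abs_sub_round x

lemma limsup_lt {x : ℕ → ℝ} {c : ℝ}
    (h : limsup (fun n => distInt (x n)) atTop < c) : ∀ᶠ n in atTop, distInt (x n) < c := by
  exact eventually_lt_of_limsup_lt h (isBoundedUnder_of ⟨1 / 2, fun n => distInt_le_half _⟩)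

/-- The length of an integer polynomial. -/
noncomputable def len (Q : ℤ[X]) : ℝ := ∑ j ∈ Finset.range (Q.natDegree + 1), |(Q.coeff j : ℝ)|

lemma len_pos {Q : ℤ[X]} (hQ : Q.Monic) : 0 < len Q := by
  unfold len
  refine lt_of_lt_of_le one_pos ?_
  refine le_trans ?_ (Finset.single_le_sum (f := fun j => |(Q.coeff j : ℝ)|)
    (fun j _ => abs_nonneg _) (Finset.self_mem_range_succ Q.natDegree))
  simp [hQ.coeff_natDegree]

/-- The recurrence satisfied by `x_n(g)`. -/
lemma rec_x {P : ℤ[X]} (hP : P ≠ 0) {k : ℕ} {g : ℂ → ℂ[X]} (hg : g ∈ Xi P k) (n : ℕ) :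
    ∑ j ∈ Finset.range ((P ^ (k + 1)).natDegree + 1),
      ((P ^ (k + 1)).coeff j : ℝ) * (xseq P g (n + j)).re = 0 := by
  set Q := P ^ (k + 1) with hQ
  have h1 : (aeval E (Q.map (Int.castRingHom ℂ))) (∑ z ∈ expRoots P, pg (g z) z) = 0 := by
    rw [map_sum]
    refine Finset.sum_eq_zero fun z hz => ?_
    refine aeval_kill _ k z ?_ (g z) (hg z hz).1
    rw [hQ, Polynomial.map_pow]
    apply pow_dvd_pow_of_dvd
    rw [dvd_iff_isRoot, IsRoot.def, eval_map]
    have := ((mem_expRoots hP z).mp hz).1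
    rwa [aeval_def] at this
  have h2 : (∑ z ∈ expRoots P, pg (g z) z) = xseq P g := by
    funext m
    rw [Finset.sum_apply]
    rfl
  rw [h2] at h1
  have h3 := congrFun h1 n
  rw [aeval_E_apply] at h3
  have hdeg : (Q.map (Int.castRingHom ℂ)).natDegree = Q.natDegree :=
    natDegree_map_eq_of_injective (RingHom.injective_int _) Q
  rw [hdeg] at h3
  have h4 := congrArg Complex.re h3
  simp only [Pi.zero_apply, Complex.zero_re, Complex.re_sum, coeff_map] at h4
  rw [← h4]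
  refine Finset.sum_congr rfl fun j _ => ?_
  rw [eq_intCast, Complex.mul_re]
  simp

/-- The nearest-integer sequence. -/
noncomputable def u (P : ℤ[X]) (g : ℂ → ℂ[X]) (n : ℕ) : ℤ := round (xseq P g n).re

lemma eventually_rec {P : ℤ[X]} (hP : P.Monic) {k : ℕ} {g : ℂ → ℂ[X]} (hg : g ∈ Xi P k)
    (h : limsup (fun n : ℕ => distInt (xseq P g n).re) atTop < 1 / len (P ^ (k + 1))) :
    ∃ n0 : ℕ, ∀ n ≥ n0, ∑ j ∈ Finset.range ((P ^ (k + 1)).natDegree + 1),
      (P ^ (k + 1)).coeff j * u P g (n + j) = 0 := by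
  have hev := limsup_lt h
  rw [eventually_atTop] at hev
  obtain ⟨n0, hn0⟩ := hev
  refine ⟨n0, fun n hn => ?_⟩
  have hQ : (P ^ (k + 1)).Monic := hP.pow _
  have hx := rec_x hP.ne_zero hg n
  set Q := P ^ (k + 1) with hQdef
  have hlen := len_pos hQ
  have h1 : |((∑ j ∈ Finset.range (Q.natDegree + 1), Q.coeff j * u P g (n + j) : ℤ) : ℝ)| < 1 := by
    have h2 : ((∑ j ∈ Finset.range (Q.natDegree + 1), Q.coeff j * u P g (n + j) : ℤ) : ℝ) =
        - ∑ j ∈ Finset.range (Q.natDegree + 1),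
          (Q.coeff j : ℝ) * ((xseq P g (n + j)).re - round (xseq P g (n + j)).re) := by
      push_cast
      simp only [mul_sub, Finset.sum_sub_distrib, hx, u]
      ring
    rw [h2, abs_neg]
    refine (Finset.abs_sum_le_sum_abs _ _).trans_lt ?_
    have h3 : ∀ j ∈ Finset.range (Q.natDegree + 1),
        |(Q.coeff j : ℝ) * ((xseq P g (n + j)).re - round (xseq P g (n + j)).re)| ≤
          |(Q.coeff j : ℝ)| * (1 / len Q) := by
      intro j _
      rw [abs_mul]
      refine mul_le_mul_of_nonneg_left ?_ (abs_nonneg _)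
      exact (hn0 (n + j) (by omega)).le
    refine lt_of_lt_of_le (Finset.sum_lt_sum h3 ⟨Q.natDegree, Finset.self_mem_range_succ _, ?_⟩) ?_
    · rw [abs_mul, hQ.coeff_natDegree]
      have := hn0 (n + Q.natDegree) (by omega)
      unfold distInt at this
      simpa using this
    · rw [← Finset.sum_mul]
      change len Q * (1 / len Q) ≤ 1
      rw [mul_one_div_cancel hlen.ne']
  have h5 : |∑ j ∈ Finset.range (Q.natDegree + 1), Q.coeff j * u P g (n + j)| < 1 := by
    exact_mod_cast h1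
  exact Int.abs_lt_one_iff.mp h5

lemma determined {Q : ℤ[X]} (hQ : Q.Monic) {u v : ℕ → ℤ} {n0 : ℕ}
    (hu : ∀ n ≥ n0, ∑ j ∈ Finset.range (Q.natDegree + 1), Q.coeff j * u (n + j) = 0)
    (hv : ∀ n ≥ n0, ∑ j ∈ Finset.range (Q.natDegree + 1), Q.coeff j * v (n + j) = 0)
    (h0 : ∀ j < Q.natDegree, u (n0 + j) = v (n0 + j)) : ∀ n ≥ n0, u n = v n := by
  have key : ∀ m : ℕ, u (n0 + m) = v (n0 + m) := by
    intro m
    induction m using Nat.strong_induction_on with
    | _ m ih =>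
      rcases lt_or_ge m Q.natDegree with hm | hm
      · exact h0 m hm
      · obtain ⟨l, rfl⟩ := Nat.exists_eq_add_of_le hm
        have h1 := hu (n0 + l) (by omega)
        have h2 := hv (n0 + l) (by omega)
        rw [Finset.sum_range_succ, hQ.coeff_natDegree, one_mul] at h1 h2
        have h3 : ∑ j ∈ Finset.range Q.natDegree, Q.coeff j * u (n0 + l + j) =
            ∑ j ∈ Finset.range Q.natDegree, Q.coeff j * v (n0 + l + j) := by
          refine Finset.sum_congr rfl fun j hj => ?_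
          have := ih (l + j) (by have := Finset.mem_range.mp hj; omega)
          rw [show n0 + l + j = n0 + (l + j) by ring, this]
        rw [h3] at h1
        have h4 : u (n0 + l + Q.natDegree) = v (n0 + l + Q.natDegree) := by linarith
        rw [show n0 + (Q.natDegree + l) = n0 + l + Q.natDegree by ring]
        exact h4
  intro n hn
  obtain ⟨m, rfl⟩ := Nat.exists_eq_add_of_le hn
  exact key m

lemma xseq_eq_of_u_eq {P : ℤ[X]} (hP : P.Monic) {k : ℕ} {g h : ℂ → ℂ[X]} (hg : g ∈ Xi P k)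
    (hh : h ∈ Xi P k) {n0 : ℕ} (hu : ∀ n ≥ n0, u P g n = u P h n) : xseq P g = xseq P h := by
  have hS : ∀ z ∈ expRoots P, 1 < ‖z‖ := fun z hz => ((mem_expRoots hP.ne_zero z).mp hz).2
  have hsum : (∑ z ∈ expRoots P, pg (g z - h z) z) = xseq P g - xseq P h := by
    funext m
    rw [Finset.sum_apply]
    simp [xseq, pg_apply, sub_mul, Finset.sum_sub_distrib]
  have hb : (∑ z ∈ expRoots P, pg (g z - h z) z) ∈ Bdd := by
    rw [hsum]
    refine ⟨∑ m ∈ Finset.range n0, ‖xseq P g m - xseq P h m‖ + 1, fun n => ?_⟩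
    rcases lt_or_ge n n0 with hn | hn
    · have := Finset.single_le_sum (f := fun m => ‖xseq P g m - xseq P h m‖)
        (fun j _ => norm_nonneg _) (Finset.mem_range.mpr hn)
      simp only [Pi.sub_apply]
      linarith
    · have h0 : 0 ≤ ∑ m ∈ Finset.range n0, ‖xseq P g m - xseq P h m‖ :=
        Finset.sum_nonneg fun _ _ => norm_nonneg _
      have h1 : ‖(xseq P g - xseq P h) n‖ ≤ 1 := by
        rw [Pi.sub_apply, ← xseq_real hP.ne_zero hg n, ← xseq_real hP.ne_zero hh n,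
          ← Complex.ofReal_sub, Complex.norm_real, Real.norm_eq_abs]
        have e1 := abs_sub_round (xseq P g n).re
        have e2 := abs_sub_round (xseq P h n).re
        have e3 : (round (xseq P g n).re : ℝ) = round (xseq P h n).re := by
          exact_mod_cast hu n hn
        rw [e3] at e1
        calc |(xseq P g n).re - (xseq P h n).re|
            = |((xseq P g n).re - round (xseq P h n).re) -
                ((xseq P h n).re - round (xseq P h n).re)| := by ring_nf
          _ ≤ 1 / 2 + 1 / 2 := (abs_sub _ _).trans (add_le_add e1 e2)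
          _ = 1 := by norm_num
      linarith
  have hz := bounded_zero (expRoots P) hS (fun z => g z - h z) k
    (fun z hz => (natDegree_sub_le _ _).trans (max_le (hg z hz).1 (hh z hz).1)) hb
  funext n
  unfold xseq
  refine Finset.sum_congr rfl fun z hz' => ?_
  rw [sub_eq_zero.mp (hz z hz')]

theorem countable_near_zero {P : ℤ[X]} (hP : P.Monic) (k : ℕ) :
    (mulLagrangeSpectrum P k ∩ Set.Iio (1 / len (P ^ (k + 1)))).Countable := by
  set Q := P ^ (k + 1) with hQdef
  have hQ : Q.Monic := hP.pow _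
  have hsub : mulLagrangeSpectrum P k ∩ Set.Iio (1 / len Q) ⊆
      ⋃ a : ℕ × (Fin Q.natDegree → ℤ), {v | ∃ g ∈ Xi P k,
        (∀ n ≥ a.1, ∑ j ∈ Finset.range (Q.natDegree + 1), Q.coeff j * u P g (n + j) = 0) ∧
        (∀ j : Fin Q.natDegree, u P g (a.1 + j) = a.2 j) ∧
        limsup (fun n : ℕ => distInt (xseq P g n).re) atTop = v} := by
    rintro v ⟨⟨g, hg, hv⟩, hlt⟩
    have hlt' : limsup (fun n : ℕ => distInt (xseq P g n).re) atTop < 1 / len Q := by
      rw [hv]; exact hlt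
    obtain ⟨n0, hn0⟩ := eventually_rec hP hg hlt'
    rw [Set.mem_iUnion]
    exact ⟨(n0, fun j => u P g (n0 + j)), g, hg, hn0, fun j => rfl, hv⟩
  refine Set.Countable.mono hsub (Set.countable_iUnion fun a => ?_)
  apply Set.Subsingleton.countable
  rintro v ⟨g, hg, hg1, hg2, hv⟩ w ⟨h, hh, hh1, hh2, hw⟩
  have hu : ∀ n ≥ a.1, u P g n = u P h n := by
    refine determined hQ hg1 hh1 fun j hj => ?_
    rw [hg2 ⟨j, hj⟩, hh2 ⟨j, hj⟩]
  rw [← hv, ← hw, xseq_eq_of_u_eq hP hg hh hu]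

theorem ne_Icc {P : ℤ[X]} (hP : P.Monic) (k : ℕ) : mulLagrangeSpectrum P k ≠ Set.Icc 0 (1 / 2) := by
  intro h
  have h1 := countable_near_zero hP k
  have hpos : 0 < 1 / len (P ^ (k + 1)) := one_div_pos.mpr (len_pos (hP.pow _))
  have h2 : Set.Ioo (0 : ℝ) (min (1 / 2) (1 / len (P ^ (k + 1)))) ⊆
      mulLagrangeSpectrum P k ∩ Set.Iio (1 / len (P ^ (k + 1))) := by
    intro x hx
    rw [h]
    exact ⟨⟨hx.1.le, hx.2.le.trans (min_le_left _ _)⟩, hx.2.trans_le (min_le_right _ _)⟩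
  have h3 := h1.mono h2
  have h4 : (Set.Ioo (0 : ℝ) (min (1 / 2) (1 / len (P ^ (k + 1))))).Nonempty :=
    Set.nonempty_Ioo.mpr (lt_min (by norm_num) hpos)
  have h5 : (Set.Ioo (0 : ℝ) (min (1 / 2) (1 / len (P ^ (k + 1))))).Countable → False := by
    intro hc
    have := Cardinal.mk_Ioo_real (lt_min (by norm_num) hpos : (0:ℝ) < min (1 / 2) (1 / len (P ^ (k + 1))))
    rw [← Cardinal.le_aleph0_iff_set_countable, this] at hc
    exact absurd hc (not_le.mpr Cardinal.aleph0_lt_continuum)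
  exact h5 h3

end Pool.Agent.Helper24.Lag2
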