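import Pool.Agent.Helper24.Lag2

set_option autoImplicit false

namespace Pool.Agent.Helper24.Lag3

open Polynomial Filter Topology Pool.Agent.Helper24.Lag1 Pool.Agent.Helper24.Lag2
open Pool.Agent.Helper24.LagDefs

/-- all complex roots of `P` -/
noncomputable def allRoots (P : ℤ[X]) : Finset ℂ :=
  open Classical in (P.aroots ℂ).toFinset

lemma mem_allRoots {P : ℤ[X]} (hP : P ≠ 0) (z : ℂ) : z ∈ allRoots P ↔ aeval z P = 0 := by
  classical
  unfold allRoots
  rw [Multiset.mem_toFinset, mem_aroots]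
  simp [hP]

lemma irr_rat {P : ℤ[X]} (hP : Admissible P) : Irreducible (P.map (algebraMap ℤ ℚ)) :=
  (Monic.irreducible_iff_irreducible_map_fraction_map hP.monic).mp hP.irreducible

lemma sum_int_aux {P : ℤ[X]} (hP0 : P ≠ 0) (R : ℤ[X]) (K : Type) [Field K] [Algebra ℚ K]
    (pb : PowerBasis ℚ K) (hmin : minpoly ℚ pb.gen = P.map (algebraMap ℤ ℚ))
    (hint : IsIntegral ℤ pb.gen) :
    ∃ m : ℤ, ∑ z ∈ allRoots P, aeval z R = (m : ℂ) := by
  have : FiniteDimensional ℚ K := pb.finite
  have hroot : ∀ z : ℂ, aeval z (minpoly ℚ pb.gen) = 0 ↔ aeval z P = 0 := by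
    intro z
    rw [hmin, aeval_map_algebraMap]
  have hintR : IsIntegral ℤ (aeval pb.gen R) :=
    IsIntegral.of_mem_of_fg _ hint.fg_adjoin_singleton _ (aeval_mem_adjoin_singleton ℤ _)
  have htr : IsIntegral ℤ (Algebra.trace ℚ K (aeval pb.gen R)) :=
    Algebra.isIntegral_trace hintR
  obtain ⟨m, hm⟩ := IsIntegrallyClosed.isIntegral_iff.mp htr
  refine ⟨m, ?_⟩
  have h1 := trace_eq_sum_embeddings (K := ℚ) (L := K) ℂ (x := aeval pb.gen R)
  rw [← hm] at h1
  have h2 : (algebraMap ℚ ℂ) ((algebraMap ℤ ℚ) m) = (m : ℂ) := by simp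
  rw [h2] at h1
  rw [h1]
  symm
  refine Finset.sum_bij (fun σ _ => σ pb.gen) ?_ ?_ ?_ ?_
  · intro σ _
    rw [mem_allRoots hP0, ← hroot, aeval_algHom_apply, minpoly.aeval, map_zero]
  · intro σ _ τ _ h
    exact pb.algHom_ext h
  · intro z hz
    rw [mem_allRoots hP0, ← hroot] at hz
    exact ⟨pb.lift z hz, Finset.mem_univ _, pb.lift_gen z hz⟩
  · intro σ _
    have h5 : (aeval (σ pb.gen)) R = ((σ.restrictScalars ℤ) (aeval pb.gen R)) := by
      rw [← aeval_algHom_apply]
      rfl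
    rw [h5]
    rfl

/-- The sum of `R(z)` over the roots `z` of `P` is an integer. -/
lemma sum_int {P : ℤ[X]} (hP : Admissible P) (R : ℤ[X]) :
    ∃ m : ℤ, ∑ z ∈ allRoots P, aeval z R = (m : ℂ) := by
  have : Fact (Irreducible (P.map (algebraMap ℤ ℚ))) := ⟨irr_rat hP⟩
  have hmon : (P.map (algebraMap ℤ ℚ)).Monic := hP.monic.map _
  refine sum_int_aux hP.monic.ne_zero R (AdjoinRoot (P.map (algebraMap ℤ ℚ)))
    (AdjoinRoot.powerBasis hmon.ne_zero) ?_ ?_
  · have h := AdjoinRoot.minpoly_root hmon.ne_zero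
    rw [hmon.leadingCoeff, inv_one, C_1, mul_one] at h
    exact h
  · refine ⟨P, hP.monic, ?_⟩
    have h := AdjoinRoot.eval₂_root (P.map (algebraMap ℤ ℚ))
    rw [eval₂_map] at h
    rw [← h]
    rfl

/-- unimodular roots -/
noncomputable def uniRoots (P : ℤ[X]) : Finset ℂ :=
  open Classical in (allRoots P).filter (fun z => ‖z‖ = 1)

/-- contracting roots -/
noncomputable def conRoots (P : ℤ[X]) : Finset ℂ :=
  open Classical in (allRoots P).filter (fun z => ‖z‖ < 1)

lemma mem_uniRoots {P : ℤ[X]} (hP : P ≠ 0) (z : ℂ) :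
    z ∈ uniRoots P ↔ aeval z P = 0 ∧ ‖z‖ = 1 := by
  classical
  unfold uniRoots
  rw [Finset.mem_filter, mem_allRoots hP]

lemma mem_conRoots {P : ℤ[X]} (hP : P ≠ 0) (z : ℂ) :
    z ∈ conRoots P ↔ aeval z P = 0 ∧ ‖z‖ < 1 := by
  classical
  unfold conRoots
  rw [Finset.mem_filter, mem_allRoots hP]

lemma card_uniRoots_lt {P : ℤ[X]} (hP : Admissible P) : (uniRoots P).card < P.natDegree := by
  classical
  have hP0 := hP.monic.ne_zero
  obtain ⟨z, hz, hz1⟩ := hP.expanding
  have h1 : uniRoots P ⊆ (allRoots P).erase z := by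
    intro w hw
    rw [Finset.mem_erase, mem_allRoots hP0]
    rw [mem_uniRoots hP0] at hw
    refine ⟨?_, hw.1⟩
    rintro rfl
    linarith [hw.2]
  have h2 := Finset.card_le_card h1
  have hz' : z ∈ allRoots P := (mem_allRoots hP0 z).mpr hz
  have h3 := Finset.card_erase_lt_of_mem hz'
  have h4 : (allRoots P).card ≤ P.natDegree := by
    unfold allRoots
    refine (Multiset.toFinset_card_le _).trans ?_
    refine (card_roots' _).trans ?_
    exact natDegree_map_le
  omega

lemma sum_split {P : ℤ[X]} (hP : P ≠ 0) (f : ℂ → ℂ) :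
    ∑ z ∈ allRoots P, f z =
      ∑ z ∈ expRoots P, f z + (∑ z ∈ uniRoots P, f z + ∑ z ∈ conRoots P, f z) := by
  classical
  have h1 : expRoots P = (allRoots P).filter (fun z => 1 < ‖z‖) := by
    ext z
    rw [mem_expRoots hP, Finset.mem_filter, mem_allRoots hP]
  have h2 : uniRoots P = ((allRoots P).filter (fun z => ¬ 1 < ‖z‖)).filter (fun z => ‖z‖ = 1) := by
    ext z
    rw [mem_uniRoots hP, Finset.mem_filter, Finset.mem_filter, mem_allRoots hP]
    constructor
    · rintro ⟨a, b⟩; exact ⟨⟨a, by linarith⟩, b⟩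
    · rintro ⟨⟨a, _⟩, b⟩; exact ⟨a, b⟩
  have h3 : conRoots P = ((allRoots P).filter (fun z => ¬ 1 < ‖z‖)).filter (fun z => ¬ ‖z‖ = 1) := by
    ext z
    rw [mem_conRoots hP, Finset.mem_filter, Finset.mem_filter, mem_allRoots hP]
    constructor
    · rintro ⟨a, b⟩; exact ⟨⟨a, by linarith⟩, by intro h; linarith⟩
    · rintro ⟨⟨a, b⟩, c⟩; exact ⟨a, lt_of_le_of_ne (not_lt.mp b) c⟩
  rw [h1, h2, h3, Finset.sum_filter_add_sum_filter_not, Finset.sum_filter_add_sum_filter_not]

/-- A nonzero integer polynomial of degree `< deg P` does not vanish at roots of `P`. -/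
lemma aeval_ne_zero {P : ℤ[X]} (hP : Admissible P) {Q : ℤ[X]} (hQ : Q ≠ 0)
    (hdeg : Q.natDegree < P.natDegree) {z : ℂ} (hz : aeval z P = 0) : aeval z Q ≠ 0 := by
  intro h
  have hirr := irr_rat hP
  have hmon : (P.map (algebraMap ℤ ℚ)).Monic := hP.monic.map _
  have hmin : P.map (algebraMap ℤ ℚ) = minpoly ℚ z :=
    minpoly.eq_of_irreducible_of_monic hirr (by rw [aeval_map_algebraMap]; exact hz) hmon
  have hdvd : minpoly ℚ z ∣ Q.map (algebraMap ℤ ℚ) := by
    apply minpoly.dvd
    rw [aeval_map_algebraMap]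
    exact h
  rw [← hmin] at hdvd
  have hinj : Function.Injective (algebraMap ℤ ℚ) := RingHom.injective_int _
  have hQ' : Q.map (algebraMap ℤ ℚ) ≠ 0 := (Polynomial.map_ne_zero_iff hinj).mpr hQ
  have := natDegree_le_of_dvd hdvd hQ'
  rw [natDegree_map_eq_of_injective hinj, natDegree_map_eq_of_injective hinj] at this
  omega

/-- integer polynomial with given coefficients -/
noncomputable def toPoly (d : ℕ) : (Fin d → ℤ) →ₗ[ℤ] ℤ[X] :=
  ∑ i : Fin d, (monomial (i : ℕ)).comp (LinearMap.proj i)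

lemma toPoly_apply (d : ℕ) (c : Fin d → ℤ) : toPoly d c = ∑ i : Fin d, monomial (i : ℕ) (c i) := by
  simp [toPoly]

lemma toPoly_coeff (d : ℕ) (c : Fin d → ℤ) (i : Fin d) : (toPoly d c).coeff i = c i := by
  rw [toPoly_apply, finsetSum_coeff]
  simp only [coeff_monomial]
  rw [Finset.sum_eq_single i]
  · simp
  · intro j _ hj
    rw [if_neg]
    intro h
    exact hj (Fin.ext h)
  · intro h
    exact absurd (Finset.mem_univ i) h

lemma toPoly_natDegree (d : ℕ) (hd : 0 < d) (c : Fin d → ℤ) : (toPoly d c).natDegree < d := by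
  rw [toPoly_apply]
  refine lt_of_le_of_lt (natDegree_sum_le_of_forall_le (n := d - 1) _ _ ?_) (by omega)
  intro i _
  refine (natDegree_monomial_le _).trans ?_
  have := i.2
  omega

/-- the linear map to real vectors -/
noncomputable def toReal (P : ℤ[X]) : (Fin P.natDegree → ℤ) →ₗ[ℤ] (uniRoots P → ℝ) :=
  LinearMap.pi fun z =>
    ((Complex.reLm + Complex.imLm).restrictScalars ℤ).comp
      ((aeval (z : ℂ)).toLinearMap.comp (toPoly P.natDegree))

lemma toReal_apply (P : ℤ[X]) (c : Fin P.natDegree → ℤ) (z : uniRoots P) :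
    toReal P c z = (aeval (z : ℂ) (toPoly _ c)).re + (aeval (z : ℂ) (toPoly _ c)).im := by
  simp [toReal]

lemma exists_small {P : ℤ[X]} (hP : Admissible P) (ε : ℝ) (hε : 0 < ε) :
    ∃ c : Fin P.natDegree → ℤ, c ≠ 0 ∧ ‖toReal P c‖ < ε := by
  by_contra hcon
  push Not at hcon
  have hinj : Function.Injective (toReal P) := by
    rw [← LinearMap.ker_eq_bot, LinearMap.ker_eq_bot']
    intro c hc
    by_contra h0
    have := hcon c h0
    rw [hc, norm_zero] at this
    linarith
  have hspan : Submodule.span ℤ (Set.range (toReal P)) = LinearMap.range (toReal P) := by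
    rw [← LinearMap.coe_range, Submodule.span_eq]
  have hdisc : DiscreteTopology (Submodule.span ℤ (Set.range (toReal P))) := by
    rw [hspan]
    rw [discreteTopology_iff_isOpen_singleton_zero, Metric.isOpen_singleton_iff]
    refine ⟨ε, hε, ?_⟩
    rintro ⟨y, c, rfl⟩ hy
    by_contra h0
    have hc : c ≠ 0 := by
      rintro rfl
      apply h0
      ext1
      simp
    have h1 := hcon c hc
    rw [dist_zero_right] at hy
    have h2 : ‖(⟨toReal P c, c, rfl⟩ : LinearMap.range (toReal P))‖ = ‖toReal P c‖ := rfl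
    rw [h2] at hy
    linarith
  have h1 := Real.finrank_eq_int_finrank_of_discrete hdisc
  have h2 : Set.finrank ℤ (Set.range (toReal P)) = P.natDegree := by
    unfold Set.finrank
    rw [hspan, LinearMap.finrank_range_of_inj hinj]
    simp
  have h3 : Set.finrank ℝ (Set.range (toReal P)) ≤ (uniRoots P).card := by
    unfold Set.finrank
    refine (Submodule.finrank_le _).trans ?_
    simp
  have h4 := card_uniRoots_lt hP
  omega

lemma norm_le_of_small {P : ℤ[X]} (hP : Admissible P) {ε : ℝ} {c : Fin P.natDegree → ℤ}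
    (h : ‖toReal P c‖ < ε) (z : ℂ) (hz : z ∈ uniRoots P) :
    ‖aeval z (toPoly P.natDegree c)‖ ≤ 2 * ε := by
  have hP0 := hP.monic.ne_zero
  set Q := toPoly P.natDegree c
  have hz' : starRingEnd ℂ z ∈ uniRoots P := by
    rw [mem_uniRoots hP0] at hz ⊢
    refine ⟨by rw [aeval_conj, hz.1, map_zero], by simpa using hz.2⟩
  have h1 : |(aeval z Q).re + (aeval z Q).im| < ε := by
    have := (norm_le_pi_norm (toReal P c) ⟨z, hz⟩).trans_lt h
    rw [toReal_apply] at this
    exact this
  have h2 : |(aeval z Q).re - (aeval z Q).im| < ε := by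
    have := (norm_le_pi_norm (toReal P c) ⟨_, hz'⟩).trans_lt h
    rw [toReal_apply] at this
    simp only at this
    rw [aeval_conj, Complex.conj_re, Complex.conj_im] at this
    exact this
  rw [abs_lt] at h1 h2
  refine (Complex.norm_le_abs_re_add_abs_im _).trans ?_
  have h3 : |(aeval z Q).re| ≤ ε := by rw [abs_le]; constructor <;> linarith
  have h4 : |(aeval z Q).im| ≤ ε := by rw [abs_le]; constructor <;> linarith
  linarith

end Pool.Agent.Helper24.Lag3
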