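import Pool.Agent.Helper24.Lag3

set_option autoImplicit false

namespace Pool.Agent.Helper24.Lag4

open Polynomial Filter Topology Pool.Agent.Helper24.Lag1 Pool.Agent.Helper24.Lag2
open Pool.Agent.Helper24.Lag3 Pool.Agent.Helper24.LagDefs

/-- the tuple attached to an integer polynomial -/
noncomputable def gQ (Q : ℤ[X]) : ℂ → ℂ[X] := fun z => C (aeval z Q)

lemma gQ_mem (P Q : ℤ[X]) (k : ℕ) : gQ Q ∈ Xi P k := by
  intro z _
  refine ⟨by simp [gQ], ?_⟩
  simp [gQ, aeval_conj]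

lemma xseq_gQ (P Q : ℤ[X]) (n : ℕ) :
    xseq P (gQ Q) n = ∑ z ∈ expRoots P, aeval z Q * z ^ n := by
  simp [xseq, gQ]

/-- the error term -/
noncomputable def err (P Q : ℤ[X]) (n : ℕ) : ℂ :=
  ∑ z ∈ uniRoots P, aeval z Q * z ^ n + ∑ z ∈ conRoots P, aeval z Q * z ^ n

lemma xseq_add_err {P : ℤ[X]} (hP : Admissible P) (Q : ℤ[X]) (n : ℕ) :
    ∃ m : ℤ, xseq P (gQ Q) n = m - err P Q n := by
  obtain ⟨m, hm⟩ := sum_int hP (Q * X ^ n)
  refine ⟨m, ?_⟩
  rw [sum_split hP.monic.ne_zero] at hm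
  simp only [map_mul, map_pow, aeval_X] at hm
  rw [xseq_gQ, ← hm, err]
  ring

lemma err_real {P : ℤ[X]} (hP : Admissible P) (Q : ℤ[X]) (n : ℕ) :
    ((err P Q n).re : ℂ) = err P Q n := by
  obtain ⟨m, hm⟩ := xseq_add_err hP Q n
  have h1 := xseq_real hP.monic.ne_zero (gQ_mem P Q 0) n
  have h2 : err P Q n = m - xseq P (gQ Q) n := by rw [hm]; ring
  rw [h2, Complex.sub_re, Complex.ofReal_sub, h1]
  simp

lemma con_tendsto {P : ℤ[X]} (hP : Admissible P) (Q : ℤ[X]) :
    Tendsto (fun n : ℕ => ∑ z ∈ conRoots P, aeval z Q * z ^ n) atTop (𝓝 0) := by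
  have : Tendsto (fun n : ℕ => ∑ z ∈ conRoots P, aeval z Q * z ^ n) atTop
      (𝓝 (∑ z ∈ conRoots P, aeval z Q * 0)) := by
    refine tendsto_finsetSum _ fun z hz => ?_
    refine Tendsto.const_mul _ ?_
    exact tendsto_pow_atTop_nhds_zero_of_norm_lt_one ((mem_conRoots hP.monic.ne_zero z).mp hz).2
  simpa using this

lemma con_norm_tendsto {P : ℤ[X]} (hP : Admissible P) (Q : ℤ[X]) :
    Tendsto (fun n : ℕ => ‖∑ z ∈ conRoots P, aeval z Q * z ^ n‖) atTop (𝓝 0) := by
  simpa using (con_tendsto hP Q).norm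

lemma err_bound {P : ℤ[X]} (hP : Admissible P) (Q : ℤ[X]) (n : ℕ) :
    |(err P Q n).re| ≤ ∑ z ∈ uniRoots P, ‖aeval z Q‖ +
      ‖∑ z ∈ conRoots P, aeval z Q * z ^ n‖ := by
  refine (Complex.abs_re_le_norm _).trans ?_
  refine (norm_add_le _ _).trans (add_le_add_left ?_ _)
  refine (norm_sum_le _ _).trans (Finset.sum_le_sum fun z hz => ?_)
  rw [norm_mul, norm_pow, ((mem_uniRoots hP.monic.ne_zero z).mp hz).2]
  simp

lemma err_bdd {P : ℤ[X]} (hP : Admissible P) (Q : ℤ[X]) :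
    IsBoundedUnder (· ≤ ·) atTop (fun n : ℕ => |(err P Q n).re|) := by
  have h1 : IsBoundedUnder (· ≤ ·) atTop (fun n : ℕ => ∑ z ∈ uniRoots P, ‖aeval z Q‖ +
      ‖∑ z ∈ conRoots P, aeval z Q * z ^ n‖) :=
    (Tendsto.const_add _ (con_norm_tendsto hP Q)).isBoundedUnder_le
  exact h1.mono_le (Eventually.of_forall fun n => err_bound hP Q n)

/-- the limsup of the error -/
noncomputable def amp (P Q : ℤ[X]) : ℝ := limsup (fun n : ℕ => |(err P Q n).re|) atTop

lemma cobdd (f : ℕ → ℝ) (hf : ∀ n, 0 ≤ f n) : IsCoboundedUnder (· ≤ ·) atTop f :=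
  (isBoundedUnder_of ⟨0, hf⟩ : IsBoundedUnder (· ≥ ·) atTop f).isCoboundedUnder_le

lemma amp_le {P : ℤ[X]} (hP : Admissible P) (Q : ℤ[X]) :
    amp P Q ≤ ∑ z ∈ uniRoots P, ‖aeval z Q‖ := by
  have h1 : Tendsto (fun n : ℕ => ∑ z ∈ uniRoots P, ‖aeval z Q‖ +
      ‖∑ z ∈ conRoots P, aeval z Q * z ^ n‖) atTop (𝓝 (∑ z ∈ uniRoots P, ‖aeval z Q‖)) := by
    have := Tendsto.const_add (∑ z ∈ uniRoots P, ‖aeval z Q‖) (con_norm_tendsto hP Q)
    rwa [add_zero] at this
  rw [← h1.limsup_eq]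
  refine limsup_le_limsup (Eventually.of_forall fun n => err_bound hP Q n)
    (cobdd _ fun n => abs_nonneg _) h1.isBoundedUnder_le

lemma amp_nonneg {P : ℤ[X]} (hP : Admissible P) (Q : ℤ[X]) : 0 ≤ amp P Q := by
  refine le_limsup_of_frequently_le (Frequently.of_forall fun n => abs_nonneg _) (err_bdd hP Q)

lemma amp_pos {P : ℤ[X]} (hP : Admissible P) (hyp : ¬ Hyperbolic P) {Q : ℤ[X]} (hQ : Q ≠ 0)
    (hdeg : Q.natDegree < P.natDegree) : 0 < amp P Q := by
  refine lt_of_le_of_ne (amp_nonneg hP Q) ?_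
  intro h0
  unfold Hyperbolic at hyp
  push Not at hyp
  obtain ⟨z, hz, hz1⟩ := hyp
  have h1 : Tendsto (fun n : ℕ => |(err P Q n).re|) atTop (𝓝 0) := by
    rw [Metric.tendsto_atTop]
    intro ε hε
    have h2 : limsup (fun n : ℕ => |(err P Q n).re|) atTop < ε := by
      rw [← amp, ← h0]; exact hε
    have h3 := eventually_lt_of_limsup_lt h2 (err_bdd hP Q)
    rw [eventually_atTop] at h3
    obtain ⟨N, hN⟩ := h3
    refine ⟨N, fun n hn => ?_⟩
    rw [Real.dist_eq, sub_zero, abs_abs]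
    exact hN n hn
  have h2 : Tendsto (fun n : ℕ => err P Q n) atTop (𝓝 0) := by
    rw [tendsto_zero_iff_norm_tendsto_zero]
    refine h1.congr fun n => ?_
    conv_rhs => rw [← err_real hP Q n]
    rw [Complex.norm_real, Real.norm_eq_abs]
  have h3 : Tendsto (fun n : ℕ => ∑ z ∈ uniRoots P, aeval z Q * z ^ n) atTop (𝓝 0) := by
    have := h2.sub (con_tendsto hP Q)
    rw [sub_zero] at this
    refine this.congr fun n => ?_
    rw [err]; ring
  have h4 := czero_zero (uniRoots P) (fun w hw => ((mem_uniRoots hP.monic.ne_zero w).mp hw).2)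
    (fun w => aeval w Q) h3 z ((mem_uniRoots hP.monic.ne_zero z).mpr ⟨hz, hz1⟩)
  exact aeval_ne_zero hP hQ hdeg hz h4

lemma err_nat_mul (P Q : ℤ[X]) (j n : ℕ) :
    err P (C (j : ℤ) * Q) n = j * err P Q n := by
  unfold err
  simp only [map_mul, aeval_C]
  rw [mul_add, Finset.mul_sum, Finset.mul_sum]
  congr 1 <;> refine Finset.sum_congr rfl fun z _ => ?_ <;> simp [mul_assoc]

lemma distInt_of_small (m : ℤ) (y : ℝ) (hy : |y| < 1 / 2) : distInt (m - y) = |y| := by
  unfold distInt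
  have h1 : round ((m : ℝ) - y) = m := by
    rw [round_eq, Int.floor_eq_iff]
    rw [abs_lt] at hy
    constructor <;> linarith [hy.1, hy.2]
  rw [h1]
  rw [show (m : ℝ) - y - m = -y by ring, abs_neg]

lemma amp_mem {P : ℤ[X]} (hP : Admissible P) (Q : ℤ[X]) (k : ℕ) (h : amp P Q < 1 / 2) :
    amp P Q ∈ mulLagrangeSpectrum P k := by
  refine ⟨gQ Q, gQ_mem P Q k, ?_⟩
  unfold amp
  refine limsup_congr ?_
  have h1 := eventually_lt_of_limsup_lt h (err_bdd hP Q)
  filter_upwards [h1] with n hn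
  obtain ⟨m, hm⟩ := xseq_add_err hP Q n
  rw [hm, Complex.sub_re, Complex.intCast_re]
  exact distInt_of_small m _ hn

lemma amp_nat_mul {P : ℤ[X]} (hP : Admissible P) (Q : ℤ[X]) (j : ℕ) :
    amp P (C (j : ℤ) * Q) = j * amp P Q := by
  unfold amp
  have hmono : Monotone (fun x : ℝ => (j : ℝ) * x) := fun x y hxy =>
    mul_le_mul_of_nonneg_left hxy (Nat.cast_nonneg j)
  have hcont : Continuous (fun x : ℝ => (j : ℝ) * x) := continuous_const_mul _
  have := hmono.map_limsup_of_continuousAt (F := (atTop : Filter ℕ))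
    (fun n : ℕ => |(err P Q n).re|) hcont.continuousAt (err_bdd hP Q)
    (cobdd _ fun n => abs_nonneg _)
  rw [this]
  congr 1
  funext n
  simp only [Function.comp]
  rw [err_nat_mul]
  have : ((j : ℂ) * err P Q n).re = j * (err P Q n).re := by
    rw [Complex.mul_re]; simp
  rw [this, abs_mul, Nat.abs_cast]

lemma dense_half {P : ℤ[X]} (hP : Admissible P) (hyp : ¬ Hyperbolic P) (k : ℕ) :
    Set.Ioo (0 : ℝ) (1 / 2) ⊆ closure (mulLagrangeSpectrum P k) := by
  intro t ht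
  rw [Metric.mem_closure_iff]
  intro δ hδ
  set s : ℝ := 2 * ((uniRoots P).card + 1) with hs
  have hs0 : 0 < s := by positivity
  obtain ⟨c, hc, hcs⟩ := exists_small hP (δ / s) (by positivity)
  set Q := toPoly P.natDegree c with hQ
  have hd : 0 < P.natDegree := lt_of_le_of_lt (Nat.zero_le _) (card_uniRoots_lt hP)
  have hQ0 : Q ≠ 0 := by
    intro h0
    apply hc
    funext i
    rw [← toPoly_coeff P.natDegree c i, ← hQ, h0]
    simp
  have hQd : Q.natDegree < P.natDegree := toPoly_natDegree _ hd c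
  have hpos := amp_pos hP hyp hQ0 hQd
  have hlt : amp P Q < δ := by
    have h1 : amp P Q ≤ (uniRoots P).card * (2 * (δ / s)) := by
      refine (amp_le hP Q).trans ?_
      rw [← nsmul_eq_mul]
      refine Finset.sum_le_card_nsmul _ _ _ fun z hz => ?_
      exact norm_le_of_small hP hcs z hz
    refine lt_of_le_of_lt h1 ?_
    rw [hs]
    have : (0 : ℝ) ≤ (uniRoots P).card := Nat.cast_nonneg _
    rw [show ((uniRoots P).card : ℝ) * (2 * (δ / (2 * ((uniRoots P).card + 1)))) =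
      δ * ((uniRoots P).card / ((uniRoots P).card + 1)) by field_simp]
    have h2 : ((uniRoots P).card : ℝ) / ((uniRoots P).card + 1) < 1 := by
      rw [div_lt_one (by positivity)]; linarith
    nlinarith
  set j := ⌊t / amp P Q⌋₊ with hj
  have hj1 : (j : ℝ) * amp P Q ≤ t := by
    have := Nat.floor_le (div_nonneg ht.1.le hpos.le)
    rw [← hj] at this
    rwa [le_div_iff₀ hpos] at this
  have hj2 : t < (j + 1) * amp P Q := by
    have := Nat.lt_floor_add_one (t / amp P Q)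
    rw [← hj] at this
    rwa [div_lt_iff₀ hpos] at this
  refine ⟨j * amp P Q, ?_, ?_⟩
  · rw [← amp_nat_mul hP]
    apply amp_mem hP
    rw [amp_nat_mul hP]
    linarith [ht.2]
  · rw [Real.dist_eq, abs_of_nonneg (by linarith)]
    linarith

theorem not_isClosed {P : ℤ[X]} (hP : Admissible P) (hyp : ¬ Hyperbolic P) (k : ℕ) :
    ¬ IsClosed (mulLagrangeSpectrum P k) := by
  intro hcl
  have hsub := dense_half hP hyp k
  rw [hcl.closure_eq] at hsub
  have hpos : 0 < 1 / len (P ^ (k + 1)) := one_div_pos.mpr (len_pos (hP.monic.pow _))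
  have hlt : (0:ℝ) < min (1 / 2) (1 / len (P ^ (k + 1))) := lt_min (by norm_num) hpos
  have h2 : Set.Ioo (0 : ℝ) (min (1 / 2) (1 / len (P ^ (k + 1)))) ⊆
      mulLagrangeSpectrum P k ∩ Set.Iio (1 / len (P ^ (k + 1))) := fun x hx =>
    ⟨hsub ⟨hx.1, hx.2.trans_le (min_le_left _ _)⟩, hx.2.trans_le (min_le_right _ _)⟩
  have hc := (countable_near_zero hP.monic k).mono h2
  have := Cardinal.mk_Ioo_real hlt
  rw [← Cardinal.le_aleph0_iff_set_countable, this] at hc
  exact absurd hc (not_le.mpr Cardinal.aleph0_lt_continuum)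

end Pool.Agent.Helper24.Lag4
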