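import Pool.Agent.Helper24.Lag4

set_option autoImplicit false

namespace Pool.Agent.Helper24.Lag5

open Polynomial Filter Topology
open Pool.Agent.Helper24.Lag2 Pool.Agent.Helper24.LagDefs

/-- the smallest-degree Salem polynomial -/
noncomputable def salem : ℤ[X] := X ^ 4 - X ^ 3 - X ^ 2 - X + 1

lemma salem_monicOfDegree : IsMonicOfDegree salem 4 := by
  have h : salem.natDegree = 4 := by unfold salem; compute_degree!
  refine ⟨h, ?_⟩
  unfold Monic leadingCoeff
  rw [h]
  unfold salem
  simp [coeff_X, coeff_one]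

lemma salem_irreducible : Irreducible salem := by
  have hmon := salem_monicOfDegree.monic
  have hdeg := salem_monicOfDegree.natDegree_eq
  rw [hmon.irreducible_iff_natDegree']
  refine ⟨?_, ?_⟩
  · intro h
    rw [h, natDegree_one] at hdeg
    omega
  · intro f g hf hg hfg hmem
    rw [hdeg, Finset.mem_Ioc] at hmem
    have hsum : f.natDegree + g.natDegree = 4 := by
      rw [← hf.natDegree_mul hg, hfg, hdeg]
    have hg12 : g.natDegree = 1 ∨ g.natDegree = 2 := by omega
    rcases hg12 with h1 | h2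
    · obtain ⟨a, ha⟩ := isMonicOfDegree_one_iff.mp ⟨h1, hg⟩
      have h3 := congrArg (eval (-a)) hfg
      rw [eval_mul, ha] at h3
      unfold salem at h3
      simp only [eval_add, eval_X, eval_C, neg_add_cancel, mul_zero, eval_sub, eval_pow,
        eval_one] at h3
      rcases Int.even_or_odd' a with ⟨b, hb | hb⟩
      · rw [hb] at h3; ring_nf at h3; omega
      · rw [hb] at h3; ring_nf at h3; omega
    · obtain ⟨a, b, hab⟩ := isMonicOfDegree_two_iff.mp ⟨h2, hg⟩
      obtain ⟨c, e, hce⟩ := isMonicOfDegree_two_iff.mp ⟨(by omega : f.natDegree = 2), hf⟩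
      rw [hab, hce] at hfg
      have e0 := congrArg (eval 0) hfg
      have e1 := congrArg (eval 1) hfg
      have e2 := congrArg (eval (-1)) hfg
      have e3 := congrArg (eval 2) hfg
      unfold salem at e0 e1 e2 e3
      simp only [eval_mul, eval_add, eval_X, eval_C, eval_sub, eval_pow, eval_one] at e0 e1 e2 e3
      norm_num at e0 e1 e2 e3
      have hbe : (e = 1 ∧ b = 1) ∨ (e = -1 ∧ b = -1) := Int.mul_eq_one_iff_eq_one_or_neg_one.mp e0
      rcases hbe with ⟨rfl, rfl⟩ | ⟨rfl, rfl⟩
      · have h5 : a + c = -1 := by nlinarith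
        have h6 : a * c = -3 := by nlinarith
        have h7 : c = -1 - a := by linarith
        rw [h7] at h6
        rcases Int.even_or_odd' a with ⟨m, hm | hm⟩
        · rw [hm] at h6; ring_nf at h6; omega
        · rw [hm] at h6; ring_nf at h6; omega
      · ring_nf at e1 e2 e3
        omega

lemma salem_admissible : Admissible salem := by
  refine ⟨salem_monicOfDegree.monic, salem_irreducible, by simp [salem], ?_⟩
  have hcont : ContinuousOn (fun x : ℝ => x ^ 4 - x ^ 3 - x ^ 2 - x + 1) (Set.Icc 1 2) := by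
    fun_prop
  have hivt := intermediate_value_Icc (by norm_num : (1:ℝ) ≤ 2) hcont
  have h0 : (0 : ℝ) ∈ Set.Icc ((1:ℝ) ^ 4 - 1 ^ 3 - 1 ^ 2 - 1 + 1) ((2:ℝ) ^ 4 - 2 ^ 3 - 2 ^ 2 - 2 + 1) := by
    constructor <;> norm_num
  obtain ⟨x, hx, hx0⟩ := hivt h0
  have hx1 : 1 < x := by
    refine lt_of_le_of_ne hx.1 ?_
    rintro rfl
    norm_num at hx0
  refine ⟨(x : ℂ), ?_, ?_⟩
  · have : ((x ^ 4 - x ^ 3 - x ^ 2 - x + 1 : ℝ) : ℂ) = 0 := by
      rw [show x ^ 4 - x ^ 3 - x ^ 2 - x + 1 = 0 from hx0]; simp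
    unfold salem
    simp only [map_add, map_sub, map_pow, aeval_X, map_one]
    push_cast at this
    exact this
  · rw [Complex.norm_real, Real.norm_eq_abs, abs_of_pos (by linarith)]
    exact hx1

lemma salem_not_hyperbolic : ¬ Hyperbolic salem := by
  intro h
  set t : ℝ := (1 - √13) / 2 with ht
  have h13 : √13 ^ 2 = 13 := Real.sq_sqrt (by norm_num)
  have ht2 : t ^ 2 = t + 3 := by rw [ht]; linear_combination (1 / 4) * h13
  have hs1 : (3 : ℝ) < √13 := by
    rw [Real.lt_sqrt (by norm_num)]; norm_num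
  have hs2 : √13 < 4 := by
    rw [Real.sqrt_lt' (by norm_num)]; norm_num
  have htb : 0 ≤ 1 - t ^ 2 / 4 := by rw [ht2, ht]; linarith
  set s : ℝ := √(1 - t ^ 2 / 4) with hs
  have hss : s ^ 2 = 1 - t ^ 2 / 4 := Real.sq_sqrt htb
  set z : ℂ := ⟨t / 2, s⟩ with hz
  have hz2 : z ^ 2 - t * z + 1 = 0 := by
    apply Complex.ext
    · simp only [hz, pow_two, Complex.add_re, Complex.sub_re, Complex.mul_re, Complex.ofReal_re,
        Complex.ofReal_im, Complex.one_re, Complex.zero_re]
      nlinarith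
    · simp only [hz, pow_two, Complex.add_im, Complex.sub_im, Complex.mul_im, Complex.ofReal_re,
        Complex.ofReal_im, Complex.one_im, Complex.zero_im]
      ring
  have htc : (t : ℂ) ^ 2 = t + 3 := by
    have := congrArg (fun x : ℝ => (x : ℂ)) ht2
    push_cast at this
    exact this
  refine h z ?_ ?_
  · unfold salem
    simp only [map_add, map_sub, map_pow, aeval_X, map_one]
    have : z ^ 4 - z ^ 3 - z ^ 2 - z + 1 =
        (z ^ 2 - t * z + 1) * (z ^ 2 - (1 - t) * z + 1) + z ^ 2 * ((t:ℂ) ^ 2 - (t + 3)) := by ring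
    rw [this, hz2, htc]
    ring
  · have hn : ‖z‖ ^ 2 = 1 := by
      rw [← Complex.normSq_eq_norm_sq, Complex.normSq_mk]
      nlinarith
    nlinarith [norm_nonneg z]

end Pool.Agent.Helper24.Lag5
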